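import Mathlib
import Pool.Agent.Helper760.Profile

/-!
# Complexity profiles of tuples with a given first component, relative to conditions
-/

set_option autoImplicit false

namespace Pool.Agent.Y576.PR

open Encodable Pool.Agent.Helper760.Kolm

/-! ### General tools -/

section tools

variable {α β γ δ V : Type*} [Primcodable α] [Primcodable β] [Primcodable γ] [Primcodable δ]
  [Primcodable V]

/-- image under a computable map -/
theorem K_map (F : δ → α) (hF : Computable F) : ∃ c : ℕ, ∀ (d : δ) (v : V),
    K (F d) v ≤ K d v + c := by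
  obtain ⟨c, hc⟩ := K_comp (β := V) (fun (d : δ) (_ : V) => F d) (hF.comp Computable.fst).to₂
    (fun v : V => v) Computable.id
  exact ⟨c, fun d v => hc d v⟩

/-- change of the condition -/
theorem K_cond (G : β → γ) (hG : Computable G) : ∃ c : ℕ, ∀ (d : δ) (b : β),
    K d b ≤ K d (G b) + c := by
  obtain ⟨c, hc⟩ := K_comp (fun (d : δ) (_ : β) => d) (Computable.fst).to₂ G hG
  exact ⟨c, fun d b => hc d b⟩

section

attribute [local irreducible] idxIn nth collect

/-- general transfer bound, relative to a condition -/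
theorem transferV {γ₁ γ₂ P : Type*} [Primcodable γ₁] [Primcodable γ₂] [Primcodable P]
    [DecidableEq α] [DecidableEq β] {en1 : γ₁ → ℕ → Option α}
    {en2 : γ₂ → ℕ → Option β} (h1 : Primrec₂ en1) (h2 : Primrec₂ en2)
    (G1 : P × V → γ₁) (G2 : P × V → γ₂) (F : P → ℕ → ℕ) (hG1 : Primrec G1) (hG2 : Primrec G2)
    (hF : Primrec₂ F) :
    ∃ c : ℕ, ∀ (q : P) (v : V) (a : α) (b : β) (i : ℕ),
    (∃ t, (collect (en1 (G1 (q, v))) t)[i]? = some a) →
    (∃ t, (collect (en2 (G2 (q, v))) t)[F q i]? = some b) →
    K b (a, v) ≤ 2 * Nat.size (encode q) + c := by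
  let φ : P × List Bool × (α × V) →. β := fun x =>
    (idxIn (en1 (G1 (x.1, x.2.2.2))) x.2.2.1).bind fun i =>
      nth (en2 (G2 (x.1, x.2.2.2))) (F x.1 i)
  have hφ : Partrec φ := by
    have e1 : Partrec (fun x : P × List Bool × (α × V) =>
        idxIn (en1 (G1 (x.1, x.2.2.2))) x.2.2.1) := by
      have e0 : Computable (fun x : P × List Bool × (α × V) => (x.1, x.2.2.2)) :=
        Computable.pair Computable.fst (Computable.snd.comp (Computable.snd.comp Computable.snd))
      have e : Computable (fun x : P × List Bool × (α × V) => (G1 (x.1, x.2.2.2), x.2.2.1)) :=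
        Computable.pair (hG1.to_comp.comp e0)
          (Computable.fst.comp (Computable.snd.comp Computable.snd))
      exact (partrec_idxIn h1).comp e
    have e2 : Partrec (fun x : (P × List Bool × (α × V)) × ℕ =>
        nth (en2 (G2 (x.1.1, x.1.2.2.2))) (F x.1.1 x.2)) := by
      have e0 : Primrec (fun x : (P × List Bool × (α × V)) × ℕ => (x.1.1, x.1.2.2.2)) :=
        Primrec.pair (Primrec.fst.comp Primrec.fst)
          (Primrec.snd.comp (Primrec.snd.comp (Primrec.snd.comp Primrec.fst)))
      have e3 : Primrec (fun x : (P × List Bool × (α × V)) × ℕ => G2 (x.1.1, x.1.2.2.2)) :=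
        hG2.comp e0
      have e4 : Primrec (fun x : (P × List Bool × (α × V)) × ℕ => F x.1.1 x.2) :=
        hF.comp (Primrec.fst.comp Primrec.fst) Primrec.snd
      exact (partrec_nth h2).comp (Primrec.pair e3 e4).to_comp
    exact Partrec.bind e1 e2
  obtain ⟨c, hc⟩ := K_param φ hφ
  refine ⟨c, fun q v a b i h1 h2 => ?_⟩
  obtain ⟨t, ht⟩ := h1
  have := hc q [] (a, v) b (by
    simp only [φ, Part.mem_bind_iff]
    exact ⟨i, mem_idxIn _ _ _ _ ht, (mem_nth _ _ _).2 h2⟩)
  simpa using this

end

/-- enumeration of the strings which are simple relative to a condition -/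
def enXV (x : ℕ × V) (t : ℕ) : Option (List Bool) :=
  (decode (α := ℕ × List Bool) t).bind fun z => if Kle z.1 x.1 z.2 x.2 then some z.2 else none

theorem primrec_enXV : Primrec₂ (enXV (V := V)) := by
  unfold enXV
  refine Primrec.option_bind (Primrec.decode.comp Primrec.snd) ?_
  refine Primrec.ite ?_ ?_ (Primrec.const none)
  · exact primrec_Kle.comp (Primrec.pair (Primrec.fst.comp Primrec.snd)
      (Primrec.pair (Primrec.fst.comp (Primrec.fst.comp Primrec.fst))
        (Primrec.pair (Primrec.snd.comp Primrec.snd)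
          (Primrec.snd.comp (Primrec.fst.comp Primrec.fst)))))
  · exact Primrec.option_some.comp (Primrec.snd.comp Primrec.snd)

theorem mem_enXV (m : ℕ) (v : V) (ξ : List Bool) :
    (∃ t, enXV (m, v) t = some ξ) ↔ K ξ v ≤ m := by
  rw [K_le_iff]
  constructor
  · rintro ⟨t, ht⟩
    simp only [enXV, Option.bind_eq_some_iff] at ht
    obtain ⟨z, _, hz⟩ := ht
    split_ifs at hz with h
    cases hz
    exact ⟨_, h⟩
  · rintro ⟨t, ht⟩
    refine ⟨encode (t, ξ), ?_⟩
    simp only [enXV, encodek, Option.bind_some]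
    rw [if_pos ht]

/-- the distinct elements of a list -/
def dd [DecidableEq α] (G : List α) : List α := collect (fun i => G[i]?) G.length

omit [Primcodable α] in
theorem nodup_dd [DecidableEq α] (G : List α) : (dd G).Nodup := nodup_collect _ _

omit [Primcodable α] in
theorem mem_dd [DecidableEq α] (G : List α) (a : α) : a ∈ dd G ↔ a ∈ G := by
  unfold dd
  rw [mem_collect, List.mem_iff_getElem?]
  constructor
  · rintro ⟨i, _, hi⟩
    exact ⟨i, hi⟩
  · rintro ⟨i, hi⟩
    obtain ⟨h1, _⟩ := List.getElem?_eq_some_iff.1 hi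
    exact ⟨i, h1, hi⟩

theorem primrec_dd [DecidableEq α] : Primrec (dd (α := α)) :=
  (primrec_collect (en := fun (G : List α) (i : ℕ) => G[i]?) Primrec.list_getElem?).comp
    Primrec.id Primrec.list_length

omit [Primcodable α] in
theorem length_dd [DecidableEq α] (G : List α) : (dd G).length = G.toFinset.card := by
  rw [← List.toFinset_card_of_nodup (nodup_dd G)]
  congr 1
  ext a
  rw [List.mem_toFinset, List.mem_toFinset, mem_dd]

omit [Primcodable α] in
theorem collect_take [DecidableEq α] (L : List α) (h : L.Nodup) (t : ℕ) :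
    collect (fun i => L[i]?) t = L.take t := by
  induction t with
  | zero => simp
  | succ t ih =>
    rw [collect_succ, ih]
    by_cases ht : t < L.length
    · rw [List.getElem?_eq_getElem ht, Option.elim_some]
      have h1 : L[t] ∉ L.take t := by
        intro hm
        rw [List.mem_iff_getElem] at hm
        obtain ⟨j, hj, hje⟩ := hm
        rw [List.length_take] at hj
        rw [List.getElem_take] at hje
        have := (List.Nodup.getElem_inj_iff h).1 hje
        omega
      rw [if_neg h1, List.take_concat_get']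
    · rw [List.getElem?_eq_none (by omega), Option.elim_none, List.take_of_length_le (by omega),
        List.take_of_length_le (by omega)]

omit [Primcodable α] in
theorem dd_of_nodup [DecidableEq α] (L : List α) (h : L.Nodup) : dd L = L := by
  unfold dd
  rw [collect_take L h, List.take_length]

end tools

/-- replacing the first component, relative to a condition -/
theorem replace_boundV {V : Type*} [Primcodable V] (idx : List ℕ) :
    ∃ c : ℕ, ∀ (W : List (List Bool)) (x' : List Bool) (v : V),
    0 < W.length →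
    K (sel idx (W.set 0 x')) v ≤ K (sel idx W) v + K x' (hd W, v)
      + 2 * Nat.size (K (sel idx W) v) + c := by
  by_cases h0 : 0 ∈ idx
  · obtain ⟨c1, hc1⟩ := K_chain (α := List (List Bool)) (β := List (List Bool)) (γ := V)
    let rep : List (List Bool) → List Bool → List (List Bool) := fun V x =>
      (idx.zip V).map (fun r => if r.1 = 0 then x else r.2)
    have hrep : Primrec₂ rep := by
      have hz : Primrec (fun V : List (List Bool) => idx.zip V) := by
        clear h0 rep
        induction idx with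
        | nil => exact (Primrec.const []).of_eq (fun V => by simp)
        | cons a idx ih =>
          have h : Primrec₂ (fun (_ : List (List Bool)) (x : List Bool × List (List Bool)) =>
              (a, x.1) :: idx.zip x.2) :=
            (Primrec.list_cons.comp (Primrec.pair (Primrec.const a) (Primrec.fst.comp Primrec.snd))
              (ih.comp (Primrec.snd.comp Primrec.snd))).to₂
          refine (Primrec.list_casesOn Primrec.id (Primrec.const []) h).of_eq ?_
          intro V
          cases V <;> rfl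
      have h2 : Primrec₂ (fun (y : List (List Bool) × List Bool) (r : ℕ × List Bool) =>
          if r.1 = 0 then y.2 else r.2) :=
        Primrec.ite (Primrec.eq.comp (Primrec.fst.comp Primrec.snd) (Primrec.const 0))
          (Primrec.snd.comp Primrec.fst) (Primrec.snd.comp Primrec.snd)
      exact Primrec.list_map (hz.comp Primrec.fst) h2
    obtain ⟨c2, hc2⟩ := K_comp (fun (x : List Bool) (y : List (List Bool) × V) => rep y.1 x)
      (hrep.comp (Primrec.fst.comp Primrec.snd) Primrec.fst).to_comp.to₂
      (fun y : List (List Bool) × V => (y.1.getD (idx.idxOf 0) [], y.2))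
      (Primrec.pair ((Primrec.list_getD []).comp Primrec.fst (Primrec.const _))
        Primrec.snd).to_comp
    refine ⟨c1 + c2, fun W x' v hW => ?_⟩
    have h1 := hc1 (sel idx W) (sel idx (W.set 0 x')) v
    have h2 := hc2 x' (sel idx W, v)
    have h3 : rep (sel idx W) x' = sel idx (W.set 0 x') := by
      simp only [rep, sel]
      clear h0 hc2 h2 h1 hrep rep
      induction idx with
      | nil => simp
      | cons a idx ih =>
        simp only [List.map_cons, List.zip_cons_cons, List.cons.injEq]
        refine ⟨?_, ih⟩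
        by_cases ha : a = 0
        · subst ha
          simp [List.getD_eq_getElem?_getD, hW]
        · rw [if_neg ha]
          simp [List.getD_eq_getElem?_getD, Ne.symm ha]
    have h4 : (sel idx W).getD (idx.idxOf 0) [] = hd W := by
      have hlt : idx.idxOf 0 < idx.length := List.idxOf_lt_length_of_mem h0
      unfold sel hd
      rw [List.getD_eq_getElem?_getD, List.getElem?_map, List.getElem?_eq_getElem hlt]
      simp
    simp only at h2
    rw [h3, h4] at h2
    omega
  · refine ⟨0, fun W x' v _ => ?_⟩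
    have h3 : sel idx (W.set 0 x') = sel idx W := by
      unfold sel
      apply List.map_congr_left
      intro a ha
      have : a ≠ 0 := fun h => h0 (h ▸ ha)
      simp [List.getD_eq_getElem?_getD, Ne.symm this]
    rw [h3]
    omega

/-! ### The typical set relative to a condition -/

/-- the enumerated set of typical tuples -/
def Typ (Idx : List (List ℕ)) (len A0 B0 : ℕ) (AB : List (ℕ × ℕ)) (w : List Bool)
    (W : List (List Bool)) : Prop :=
  W.length = len ∧ K (hd W) w ≤ A0 ∧ K W (hd W, w) ≤ B0 ∧
    ∀ r ∈ Idx.zip AB, K (sel r.1 W) w ≤ r.2.1 ∧ K W (sel r.1 W, w) ≤ r.2.2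

/-- stage `t` version -/
def TypS (Idx : List (List ℕ)) (len : ℕ) (g : (ℕ × ℕ × List (ℕ × ℕ)) × List Bool) (t : ℕ)
    (W : List (List Bool)) : Prop :=
  W.length = len ∧ Kle t g.1.1 (hd W) g.2 ∧ Kle t g.1.2.1 W (hd W, g.2) ∧
    ∀ r ∈ Idx.zip g.1.2.2, Kle t r.2.1 (sel r.1 W) g.2 ∧ Kle t r.2.2 W (sel r.1 W, g.2)

instance (Idx : List (List ℕ)) (len : ℕ) (g : (ℕ × ℕ × List (ℕ × ℕ)) × List Bool) (t : ℕ)
    (W : List (List Bool)) : Decidable (TypS Idx len g t W) := by
  unfold TypS; infer_instance

theorem Typ_iff (Idx : List (List ℕ)) (len A0 B0 : ℕ) (AB : List (ℕ × ℕ)) (w : List Bool)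
    (W : List (List Bool)) :
    Typ Idx len A0 B0 AB w W ↔ ∃ t, TypS Idx len ((A0, B0, AB), w) t W := by
  unfold Typ TypS
  constructor
  · rintro ⟨h1, h2, h3, h4⟩
    obtain ⟨t2, ht2⟩ := (K_le_iff _ _ _).1 h2
    obtain ⟨t3, ht3⟩ := (K_le_iff _ _ _).1 h3
    obtain ⟨t4, ht4⟩ := exists_unif (Idx.zip AB)
      (fun r t => Kle t r.2.1 (sel r.1 W) w ∧ Kle t r.2.2 W (sel r.1 W, w))
      (fun r t t' htt h => ⟨Kle_mono htt h.1, Kle_mono htt h.2⟩)
      (fun r hr => by
        obtain ⟨ta, hta⟩ := (K_le_iff _ _ _).1 (h4 r hr).1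
        obtain ⟨tb, htb⟩ := (K_le_iff _ _ _).1 (h4 r hr).2
        exact ⟨max ta tb, Kle_mono (le_max_left _ _) hta, Kle_mono (le_max_right _ _) htb⟩)
    refine ⟨max t2 (max t3 t4), h1, Kle_mono (by omega) ht2, Kle_mono (by omega) ht3, ?_⟩
    intro r hr
    exact ⟨Kle_mono (by omega) (ht4 r hr).1, Kle_mono (by omega) (ht4 r hr).2⟩
  · rintro ⟨t, h1, h2, h3, h4⟩
    exact ⟨h1, (K_le_iff _ _ _).2 ⟨t, h2⟩, (K_le_iff _ _ _).2 ⟨t, h3⟩,
      fun r hr => ⟨(K_le_iff _ _ _).2 ⟨t, (h4 r hr).1⟩, (K_le_iff _ _ _).2 ⟨t, (h4 r hr).2⟩⟩⟩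

theorem primrec_TypS (Idx : List (List ℕ)) (len : ℕ) :
    PrimrecPred (fun x : ((ℕ × ℕ × List (ℕ × ℕ)) × List Bool) × ℕ × List (List Bool) =>
      TypS Idx len x.1 x.2.1 x.2.2) := by
  unfold TypS
  have hg : Primrec (fun x : ((ℕ × ℕ × List (ℕ × ℕ)) × List Bool) × ℕ × List (List Bool) =>
      x.1.1) := Primrec.fst.comp Primrec.fst
  have hw : Primrec (fun x : ((ℕ × ℕ × List (ℕ × ℕ)) × List Bool) × ℕ × List (List Bool) =>
      x.1.2) := Primrec.snd.comp Primrec.fst
  have ht : Primrec (fun x : ((ℕ × ℕ × List (ℕ × ℕ)) × List Bool) × ℕ × List (List Bool) =>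
      x.2.1) := Primrec.fst.comp Primrec.snd
  have hW : Primrec (fun x : ((ℕ × ℕ × List (ℕ × ℕ)) × List Bool) × ℕ × List (List Bool) =>
      x.2.2) := Primrec.snd.comp Primrec.snd
  refine PrimrecPred.and ?_ (PrimrecPred.and ?_ (PrimrecPred.and ?_ ?_))
  · exact Primrec.eq.comp (Primrec.list_length.comp hW) (Primrec.const len)
  · exact primrec_Kle.comp (Primrec.pair ht (Primrec.pair (Primrec.fst.comp hg)
      (Primrec.pair (primrec_hd.comp hW) hw)))
  · exact primrec_Kle.comp (Primrec.pair ht (Primrec.pair (Primrec.fst.comp (Primrec.snd.comp hg))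
      (Primrec.pair hW (Primrec.pair (primrec_hd.comp hW) hw))))
  · have hR : PrimrecRel (fun (r : List ℕ × ℕ × ℕ) (y : ℕ × List Bool × List (List Bool)) =>
        Kle y.1 r.2.1 (sel r.1 y.2.2) y.2.1 ∧ Kle y.1 r.2.2 y.2.2 (sel r.1 y.2.2, y.2.1)) := by
      have hr1 : Primrec (fun z : (List ℕ × ℕ × ℕ) × (ℕ × List Bool × List (List Bool)) =>
        z.1.1) := Primrec.fst.comp Primrec.fst
      have hr2 : Primrec (fun z : (List ℕ × ℕ × ℕ) × (ℕ × List Bool × List (List Bool)) =>
        z.1.2.1) := Primrec.fst.comp (Primrec.snd.comp Primrec.fst)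
      have hr3 : Primrec (fun z : (List ℕ × ℕ × ℕ) × (ℕ × List Bool × List (List Bool)) =>
        z.1.2.2) := Primrec.snd.comp (Primrec.snd.comp Primrec.fst)
      have hy1 : Primrec (fun z : (List ℕ × ℕ × ℕ) × (ℕ × List Bool × List (List Bool)) =>
        z.2.1) := Primrec.fst.comp Primrec.snd
      have hyw : Primrec (fun z : (List ℕ × ℕ × ℕ) × (ℕ × List Bool × List (List Bool)) =>
        z.2.2.1) := Primrec.fst.comp (Primrec.snd.comp Primrec.snd)
      have hy2 : Primrec (fun z : (List ℕ × ℕ × ℕ) × (ℕ × List Bool × List (List Bool)) =>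
        z.2.2.2) := Primrec.snd.comp (Primrec.snd.comp Primrec.snd)
      have hs := primrec_sel.comp hr1 hy2
      refine PrimrecPred.and ?_ ?_
      · exact primrec_Kle.comp (Primrec.pair hy1 (Primrec.pair hr2
          (Primrec.pair hs hyw)))
      · exact primrec_Kle.comp (Primrec.pair hy1 (Primrec.pair hr3
          (Primrec.pair hy2 (Primrec.pair hs hyw))))
    exact (hR.forall_mem_list).comp ((primrec_zip_const Idx).comp
      (Primrec.snd.comp (Primrec.snd.comp hg))) (Primrec.pair ht (Primrec.pair hw hW))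

section enum

variable (Idx : List (List ℕ)) (len : ℕ)

/-- enumeration of the typical set -/
def enS (x : GP × List Bool) (t : ℕ) : Option (List (List Bool)) :=
  (decode (α := ℕ × List (List Bool)) t).bind fun z =>
    if TypS Idx len x z.1 z.2 then some z.2 else none

theorem primrec_enS : Primrec₂ (enS Idx len) := by
  unfold enS
  refine Primrec.option_bind (Primrec.decode.comp Primrec.snd) ?_
  refine Primrec.ite ?_ ?_ (Primrec.const none)
  · exact (primrec_TypS Idx len).comp (Primrec.pair (Primrec.fst.comp Primrec.fst)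
      Primrec.snd)
  · exact Primrec.option_some.comp (Primrec.snd.comp Primrec.snd)

theorem mem_enS (g : GP) (w : List Bool) (W : List (List Bool)) :
    (∃ t, enS Idx len (g, w) t = some W) ↔ Typ Idx len g.1 g.2.1 g.2.2 w W := by
  rw [Typ_iff]
  constructor
  · rintro ⟨t, ht⟩
    simp only [enS, Option.bind_eq_some_iff] at ht
    obtain ⟨z, _, hz⟩ := ht
    split_ifs at hz with h
    cases hz
    exact ⟨_, h⟩
  · rintro ⟨t, ht⟩
    refine ⟨encode (t, W), ?_⟩
    simp only [enS, encodek, Option.bind_some]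
    rw [if_pos ht]

theorem exists_large : ∃ c, ∀ (g : GP) (w : List Bool) (Z : List (List Bool)),
    Typ Idx len g.1 g.2.1 g.2.2 w Z →
    ∃ F : Finset (List (List Bool)), (∀ W ∈ F, Typ Idx len g.1 g.2.1 g.2.2 w W) ∧
      2 ^ (K Z w - (2 * Nat.size (encode g) + c)) ≤ F.card := by
  obtain ⟨c, hc⟩ := K_index (primrec_enS Idx len)
  refine ⟨c + 1, fun g w Z hZ => ?_⟩
  by_cases hsmall : K Z w ≤ 2 * Nat.size (encode g) + (c + 1)
  · refine ⟨{Z}, ?_, ?_⟩
    · intro W hW
      rw [Finset.mem_singleton] at hW
      rwa [hW]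
    · have : K Z w - (2 * Nat.size (encode g) + (c + 1)) = 0 := by omega
      rw [this]; simp
  · push Not at hsmall
    by_contra hcon
    push Not at hcon
    set M' := K Z w - (2 * Nat.size (encode g) + (c + 1)) with hM'
    have h1 := hc g w M' (by
      intro S hS
      have := hcon S (fun W hW => (mem_enS Idx len g w W).1 (hS W hW))
      omega) Z ((mem_enS Idx len g w Z).2 hZ)
    omega

end enum

end Pool.Agent.Y576.PR
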