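import Mathlib
import Pool.Agent.Y576.PR.Core

/-!
# Simple finite sets with the same counting data as a typical set
-/

set_option autoImplicit false

namespace Pool.Agent.Y576.PR

open Encodable Pool.Agent.Helper760.Kolm

abbrev Tup := List (List Bool)

/-- section of a list with respect to the first component -/
def secH (F : List Tup) (ξ : List Bool) : List Tup := F.filter (fun W => hd W = ξ)

/-- section of a list with respect to a subtuple -/
def secS (F : List Tup) (b : List ℕ × Tup) : List Tup := F.filter (fun W => sel b.1 W = b.2)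

theorem primrec_secH : Primrec₂ secH := by
  have hR : PrimrecRel (fun (W : Tup) (ξ : List Bool) => hd W = ξ) :=
    Primrec.eq.comp (primrec_hd.comp Primrec.fst) Primrec.snd
  exact hR.listFilter

theorem primrec_secS : Primrec₂ secS := by
  have hR : PrimrecRel (fun (W : Tup) (b : List ℕ × Tup) => sel b.1 W = b.2) :=
    Primrec.eq.comp (primrec_sel.comp (Primrec.fst.comp Primrec.snd) Primrec.fst)
      (Primrec.snd.comp Primrec.snd)
  exact hR.listFilter

/-- the image of the subtuples -/
def imS (F : List Tup) (idx : List ℕ) : List Tup := dd (F.map (sel idx))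

theorem primrec_imS : Primrec₂ imS := by
  have h : Primrec₂ (fun (x : List Tup × List ℕ) (W : Tup) => sel x.2 W) :=
    primrec_sel.comp (Primrec.snd.comp Primrec.fst) Primrec.snd
  exact primrec_dd.comp (Primrec.list_map Primrec.fst h)

/-- the image of the first components -/
def imH (F : List Tup) : List (List Bool) := dd (F.map hd)

theorem primrec_imH : Primrec imH := by
  have h : Primrec₂ (fun (_ : List Tup) (W : Tup) => hd W) := primrec_hd.comp Primrec.snd
  exact primrec_dd.comp (Primrec.list_map Primrec.id h)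

/-- the counting data of a finite set of tuples -/
def Good (Idx : List (List ℕ)) (len : ℕ) (g : ℕ × ℕ × ℕ × List (ℕ × ℕ)) (F : List Tup) : Prop :=
  dd F = F ∧ 2 ^ g.1 ≤ F.length ∧ (imH F).length ≤ 2 ^ (g.2.1 + 1) ∧
    (∀ W ∈ F, W.length = len ∧ (secH F (hd W)).length ≤ 2 ^ (g.2.2.1 + 1)) ∧
    ∀ r ∈ Idx.zip g.2.2.2, (imS F r.1).length ≤ 2 ^ (r.2.1 + 1) ∧
      ∀ W ∈ F, (secS F (r.1, sel r.1 W)).length ≤ 2 ^ (r.2.2 + 1)

instance (Idx : List (List ℕ)) (len : ℕ) (g : ℕ × ℕ × ℕ × List (ℕ × ℕ)) (F : List Tup) :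
    Decidable (Good Idx len g F) := by
  unfold Good; infer_instance

theorem primrec_Good (Idx : List (List ℕ)) (len : ℕ) :
    PrimrecPred (fun x : (ℕ × ℕ × ℕ × List (ℕ × ℕ)) × List Tup => Good Idx len x.1 x.2) := by
  unfold Good
  have hg : Primrec (fun x : (ℕ × ℕ × ℕ × List (ℕ × ℕ)) × List Tup => x.1) := Primrec.fst
  have hF : Primrec (fun x : (ℕ × ℕ × ℕ × List (ℕ × ℕ)) × List Tup => x.2) := Primrec.snd
  refine PrimrecPred.and ?_ (PrimrecPred.and ?_ (PrimrecPred.and ?_ (PrimrecPred.and ?_ ?_)))
  · exact Primrec.eq.comp (primrec_dd.comp hF) hF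
  · exact Primrec.nat_le.comp (primrec_pow.comp (Primrec.const 2) (Primrec.fst.comp hg))
      (Primrec.list_length.comp hF)
  · exact Primrec.nat_le.comp (Primrec.list_length.comp (primrec_imH.comp hF))
      (primrec_pow.comp (Primrec.const 2) (Primrec.succ.comp (Primrec.fst.comp
        (Primrec.snd.comp hg))))
  · have hR : PrimrecRel (fun (W : Tup) (y : List Tup × ℕ) =>
        W.length = len ∧ (secH y.1 (hd W)).length ≤ 2 ^ (y.2 + 1)) := by
      refine PrimrecPred.and ?_ ?_
      · exact Primrec.eq.comp (Primrec.list_length.comp Primrec.fst) (Primrec.const len)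
      · exact Primrec.nat_le.comp (Primrec.list_length.comp
          (primrec_secH.comp (Primrec.fst.comp Primrec.snd) (primrec_hd.comp Primrec.fst)))
          (primrec_pow.comp (Primrec.const 2) (Primrec.succ.comp (Primrec.snd.comp Primrec.snd)))
    exact (hR.forall_mem_list).comp hF (Primrec.pair hF (Primrec.fst.comp
      (Primrec.snd.comp (Primrec.snd.comp hg))))
  · have hR : PrimrecRel (fun (r : List ℕ × ℕ × ℕ) (F : List Tup) =>
        (imS F r.1).length ≤ 2 ^ (r.2.1 + 1) ∧
          ∀ W ∈ F, (secS F (r.1, sel r.1 W)).length ≤ 2 ^ (r.2.2 + 1)) := by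
      refine PrimrecPred.and ?_ ?_
      · exact Primrec.nat_le.comp (Primrec.list_length.comp
          (primrec_imS.comp Primrec.snd (Primrec.fst.comp Primrec.fst)))
          (primrec_pow.comp (Primrec.const 2) (Primrec.succ.comp (Primrec.fst.comp
            (Primrec.snd.comp Primrec.fst))))
      · have hR2 : PrimrecRel (fun (W : Tup) (y : (List ℕ × ℕ × ℕ) × List Tup) =>
            (secS y.2 (y.1.1, sel y.1.1 W)).length ≤ 2 ^ (y.1.2.2 + 1)) := by
          have h1 : Primrec (fun z : Tup × ((List ℕ × ℕ × ℕ) × List Tup) => z.2.1.1) :=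
            Primrec.fst.comp (Primrec.fst.comp Primrec.snd)
          exact Primrec.nat_le.comp (Primrec.list_length.comp
            (primrec_secS.comp (Primrec.snd.comp Primrec.snd)
              (Primrec.pair h1 (primrec_sel.comp h1 Primrec.fst))))
            (primrec_pow.comp (Primrec.const 2) (Primrec.succ.comp (Primrec.snd.comp
              (Primrec.snd.comp (Primrec.fst.comp Primrec.snd)))))
        exact (hR2.forall_mem_list).comp Primrec.snd Primrec.id
    exact (hR.forall_mem_list).comp ((primrec_zip_const Idx).comp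
      (Primrec.snd.comp (Primrec.snd.comp (Primrec.snd.comp hg)))) hF

/-- parameters of the counting data -/
abbrev GQ := ℕ × ℕ × ℕ × List (ℕ × ℕ)

/-- enumeration of the good sets -/
def enF (Idx : List (List ℕ)) (len : ℕ) (g : GQ) (t : ℕ) : Option (List Tup) :=
  (decode (α := List Tup) t).bind fun F => if Good Idx len g F then some F else none

theorem primrec_enF (Idx : List (List ℕ)) (len : ℕ) : Primrec₂ (enF Idx len) := by
  unfold enF
  refine Primrec.option_bind (Primrec.decode.comp Primrec.snd) ?_
  refine Primrec.ite ?_ ?_ (Primrec.const none)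
  · exact (primrec_Good Idx len).comp (Primrec.pair (Primrec.fst.comp Primrec.fst) Primrec.snd)
  · exact Primrec.option_some.comp Primrec.snd

/-- the first element of an enumeration is simple -/
theorem K_first {V γ α : Type*} [Primcodable V] [Primcodable γ] [Primcodable α] [DecidableEq α]
    {en : γ → ℕ → Option α} (hen : Primrec₂ en) : ∃ c : ℕ, ∀ (g : γ) (v : V) (a : α),
    a ∈ nth (en g) 0 → K a v ≤ 2 * Nat.size (encode g) + c := by
  have hφ : Partrec (fun x : γ × List Bool × V => nth (en x.1) 0) := by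
    have h1 : Primrec (fun y : (γ × List Bool × V) × ℕ => (collect (en y.1.1) y.2)[0]?) :=
      Primrec.list_getElem?.comp ((primrec_collect hen).comp (Primrec.fst.comp Primrec.fst)
        Primrec.snd) (Primrec.const 0)
    exact Partrec.rfindOpt h1.to_comp.to₂
  obtain ⟨c, hc⟩ := K_param _ hφ
  refine ⟨c, fun g v a ha => ?_⟩
  have h2 := hc g [] v a ha
  rw [List.length_nil, zero_add] at h2
  exact h2

/-- If there is a good set, then there is a good set which is simple relative to everything. -/
theorem exists_simple {V : Type*} [Primcodable V] (Idx : List (List ℕ)) (len : ℕ) :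
    ∃ c : ℕ, ∀ (g : GQ) (F₀ : List Tup), Good Idx len g F₀ → ∃ F : List Tup, Good Idx len g F ∧
      ∀ v : V, K F v ≤ 2 * Nat.size (encode g) + c := by
  obtain ⟨c, hc⟩ := K_first (V := V) (primrec_enF Idx len)
  refine ⟨c, fun g F₀ hF₀ => ?_⟩
  obtain ⟨t, F, hF⟩ := exists_nth_of_card (enF Idx len g) {F₀} (by
    intro a ha
    rw [Finset.mem_singleton] at ha
    subst ha
    refine ⟨encode a, ?_⟩
    simp only [enF, encodek, Option.bind_some]
    rw [if_pos hF₀]) 0 (by simp)
  obtain ⟨t', ht'⟩ := collect_getElem?_mem _ _ _ _ hF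
  refine ⟨F, ?_, fun v => ?_⟩
  · simp only [enF, Option.bind_eq_some_iff] at ht'
    obtain ⟨z, _, hz⟩ := ht'
    split_ifs at hz with h
    cases hz
    exact h
  · exact hc g v F ((mem_nth _ _ _).2 ⟨t, hF⟩)

/-- the typical set is good -/
theorem good_of_typ (Idx : List (List ℕ)) (len : ℕ) (g : GP) (w : List Bool) (κ : ℕ)
    (F : Finset Tup) (hF : ∀ W ∈ F, Typ Idx len g.1 g.2.1 g.2.2 w W) (hκ : 2 ^ κ ≤ F.card) :
    ∃ F₀ : List Tup, Good Idx len (κ, g) F₀ := by
  classical
  refine ⟨dd F.toList, ?_⟩
  have hmem : ∀ W, W ∈ dd F.toList ↔ W ∈ F := fun W => by rw [mem_dd, Finset.mem_toList]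
  have hnd := nodup_dd F.toList
  have hlen : (dd F.toList).length = F.card := by
    rw [length_dd, Finset.toList_toFinset]
  have hfil : ∀ (p : Tup → Bool), ((dd F.toList).filter p).Nodup := fun p => hnd.filter p
  refine ⟨?_, ?_, ?_, ?_, ?_⟩
  · -- dd (dd L) = dd L
    exact dd_of_nodup _ hnd
  · rw [hlen]; exact hκ
  · show (imH (dd F.toList)).length ≤ _
    unfold imH
    rw [length_dd]
    refine (card_le w g.1 _ ?_).le
    intro ξ hξ
    rw [List.mem_toFinset, List.mem_map] at hξ
    obtain ⟨W, hW, rfl⟩ := hξ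
    exact (hF W ((hmem W).1 hW)).2.1
  · intro W hW
    refine ⟨(hF W ((hmem W).1 hW)).1, ?_⟩
    unfold secH
    rw [← List.toFinset_card_of_nodup (hfil _)]
    refine (card_le (hd W, w) g.2.1 _ ?_).le
    intro W' hW'
    rw [List.mem_toFinset, List.mem_filter] at hW'
    have h1 := (hF W' ((hmem W').1 hW'.1)).2.2.1
    have h2 : hd W' = hd W := by simpa using hW'.2
    rwa [h2] at h1
  · intro r hr
    refine ⟨?_, ?_⟩
    · unfold imS
      rw [length_dd]
      refine (card_le w r.2.1 _ ?_).le
      intro ξ hξ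
      rw [List.mem_toFinset, List.mem_map] at hξ
      obtain ⟨W, hW, rfl⟩ := hξ
      exact ((hF W ((hmem W).1 hW)).2.2.2 r hr).1
    · intro W hW
      unfold secS
      rw [← List.toFinset_card_of_nodup (hfil _)]
      refine (card_le (sel r.1 W, w) r.2.2 _ ?_).le
      intro W' hW'
      rw [List.mem_toFinset, List.mem_filter] at hW'
      have h1 := ((hF W' ((hmem W').1 hW'.1)).2.2.2 r hr).2
      have h2 : sel r.1 W' = sel r.1 W := by simpa using hW'.2
      rwa [h2] at h1

end Pool.Agent.Y576.PR
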