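import Mathlib
import Pool.Agent.Y576.PR.Core2

/-!
# Choice of a tuple in a simple finite set with a given first component
-/

set_option autoImplicit false

namespace Pool.Agent.Y576.PR

open Encodable Pool.Agent.Helper760.Kolm

/-- conditions: a finite set of tuples and a string -/
abbrev VV := List Tup × List Bool

theorem K_list {β α : Type*} [Primcodable α] [Primcodable β] [DecidableEq α]
    (L : β → List α) (hL : Primrec L) : ∃ c : ℕ, ∀ (b : β) (m : ℕ), (L b).toFinset.card ≤ 2 ^ m →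
      ∀ a ∈ L b, K a b ≤ m + c := by
  have hen : Primrec₂ (fun (x : Unit × β) (t : ℕ) => (L x.2)[t]?) :=
    Primrec.list_getElem?.comp (hL.comp (Primrec.snd.comp Primrec.fst)) Primrec.snd
  obtain ⟨c, hc⟩ := K_index hen
  refine ⟨c, fun b m hm a ha => ?_⟩
  obtain ⟨i, hi, hia⟩ := List.getElem_of_mem ha
  have h := hc () b m (by
    intro S hS
    refine (Finset.card_le_card ?_).trans hm
    intro a' ha'
    obtain ⟨t, ht⟩ := hS a' ha'
    rw [List.mem_toFinset]
    exact List.mem_of_getElem? ht) a ⟨i, by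
      show (L b)[i]? = some a
      rw [List.getElem?_eq_getElem hi, hia]⟩
  simp only [size_encode_unit] at h
  omega

theorem K_imS (idx : List ℕ) : ∃ c : ℕ, ∀ (F : List Tup) (w : List Bool) (j : ℕ),
    (imS F idx).length ≤ 2 ^ j → ∀ W ∈ F, K (sel idx W) (F, w) ≤ j + c := by
  have h : Primrec (fun v : VV => v.1.map (sel idx)) := by
    have h1 : Primrec₂ (fun (_ : VV) (W : Tup) => sel idx W) :=
      primrec_sel.comp (Primrec.const idx) Primrec.snd
    exact Primrec.list_map Primrec.fst h1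
  obtain ⟨c, hc⟩ := K_list _ h
  refine ⟨c, fun F w j hj W hW => hc (F, w) j ?_ _ (List.mem_map_of_mem hW)⟩
  unfold imS at hj
  rwa [length_dd] at hj

theorem K_imH : ∃ c : ℕ, ∀ (F : List Tup) (w : List Bool) (j : ℕ),
    (imH F).length ≤ 2 ^ j → ∀ W ∈ F, K (hd W) (F, w) ≤ j + c := by
  have h : Primrec (fun v : VV => v.1.map hd) := by
    have h1 : Primrec₂ (fun (_ : VV) (W : Tup) => hd W) :=
      primrec_hd.comp Primrec.snd
    exact Primrec.list_map Primrec.fst h1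
  obtain ⟨c, hc⟩ := K_list _ h
  refine ⟨c, fun F w j hj W hW => hc (F, w) j ?_ _ (List.mem_map_of_mem hW)⟩
  unfold imH at hj
  rwa [length_dd] at hj

theorem K_secS (idx : List ℕ) : ∃ c : ℕ, ∀ (F : List Tup) (w : List Bool) (j : ℕ), ∀ W ∈ F,
    (secS F (idx, sel idx W)).length ≤ 2 ^ j → K W (sel idx W, (F, w)) ≤ j + c := by
  have h : Primrec (fun v : Tup × VV => secS v.2.1 (idx, v.1)) :=
    primrec_secS.comp (Primrec.fst.comp Primrec.snd) (Primrec.pair (Primrec.const idx) Primrec.fst)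
  obtain ⟨c, hc⟩ := K_list _ h
  refine ⟨c, fun F w j W hW hj => hc (sel idx W, (F, w)) j ?_ _ ?_⟩
  · exact (List.toFinset_card_le _).trans hj
  · show W ∈ secS F (idx, sel idx W)
    unfold secS
    rw [List.mem_filter]
    exact ⟨hW, by simp⟩

theorem K_secH : ∃ c : ℕ, ∀ (F : List Tup) (w : List Bool) (j : ℕ), ∀ W ∈ F,
    (secH F (hd W)).length ≤ 2 ^ j → K W (hd W, (F, w)) ≤ j + c := by
  have h : Primrec (fun v : List Bool × VV => secH v.2.1 v.1) :=
    primrec_secH.comp (Primrec.fst.comp Primrec.snd) Primrec.fst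
  obtain ⟨c, hc⟩ := K_list _ h
  refine ⟨c, fun F w j W hW hj => hc (hd W, (F, w)) j ?_ _ ?_⟩
  · exact (List.toFinset_card_le _).trans hj
  · show W ∈ secH F (hd W)
    unfold secH
    rw [List.mem_filter]
    exact ⟨hW, by simp⟩

/-- enumeration of the first components with large sections -/
def enU (x : List Tup × ℕ) (t : ℕ) : Option (List Bool) :=
  ((x.1.map hd)[t]?).bind fun ξ => if 2 ^ x.2 ≤ (secH x.1 ξ).length then some ξ else none

theorem primrec_enU : Primrec₂ enU := by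
  unfold enU
  have h1 : Primrec₂ (fun (_ : List Tup × ℕ) (W : Tup) => hd W) := primrec_hd.comp Primrec.snd
  refine Primrec.option_bind ?_ ?_
  · exact Primrec.list_getElem?.comp ((Primrec.list_map Primrec.fst h1).comp Primrec.fst)
      Primrec.snd
  · refine Primrec.ite ?_ ?_ (Primrec.const none)
    · exact Primrec.nat_le.comp (primrec_pow.comp (Primrec.const 2)
        (Primrec.snd.comp (Primrec.fst.comp Primrec.fst)))
        (Primrec.list_length.comp (primrec_secH.comp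
          (Primrec.fst.comp (Primrec.fst.comp Primrec.fst)) Primrec.snd))
    · exact Primrec.option_some.comp Primrec.snd

theorem mem_enU (F : List Tup) (τ : ℕ) (ξ : List Bool) :
    (∃ t, enU (F, τ) t = some ξ) ↔ (∃ W ∈ F, hd W = ξ) ∧ 2 ^ τ ≤ (secH F ξ).length := by
  constructor
  · rintro ⟨t, ht⟩
    simp only [enU, Option.bind_eq_some_iff] at ht
    obtain ⟨z, hz1, hz⟩ := ht
    split_ifs at hz with h
    cases hz
    have h1 := List.mem_of_getElem? hz1
    rw [List.mem_map] at h1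
    exact ⟨h1, h⟩
  · rintro ⟨⟨W, hW, hWξ⟩, h⟩
    have h1 : ξ ∈ F.map hd := by
      rw [List.mem_map]
      exact ⟨W, hW, hWξ⟩
    obtain ⟨i, hi, hia⟩ := List.getElem_of_mem h1
    refine ⟨i, ?_⟩
    simp only [enU, Option.bind_eq_some_iff]
    refine ⟨ξ, ?_, ?_⟩
    · rw [List.getElem?_eq_getElem hi, hia]
    · rw [if_pos h]

/-- parameters `(τ, md, r, ρ)` -/
abbrev PQ := ℕ × ℕ × ℕ × ℕ

theorem fwd : ∃ c : ℕ, ∀ (q : PQ) (v : VV) (x' ξ : List Bool) (i : ℕ),
    (∃ t, (collect (enXV (q.2.1, v)) t)[i]? = some x') →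
    (∃ t, (collect (enU (v.1, q.1)) t)[i / 2 ^ q.2.2.1]? = some ξ) →
    K ξ (x', v) ≤ 2 * Nat.size (encode q) + c :=
  transferV primrec_enXV primrec_enU (fun z : PQ × VV => (z.1.2.1, z.2))
    (fun z => (z.2.1, z.1.1)) (fun q i => i / 2 ^ q.2.2.1)
    (Primrec.pair (Primrec.fst.comp (Primrec.snd.comp Primrec.fst)) Primrec.snd)
    (Primrec.pair (Primrec.fst.comp Primrec.snd) (Primrec.fst.comp Primrec.fst))
    (Primrec.nat_div.comp Primrec.snd (primrec_pow.comp (Primrec.const 2)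
      (Primrec.fst.comp (Primrec.snd.comp (Primrec.snd.comp Primrec.fst)))))

theorem bwd : ∃ c : ℕ, ∀ (q : PQ) (v : VV) (ξ x' : List Bool) (i : ℕ),
    (∃ t, (collect (enU (v.1, q.1)) t)[i]? = some ξ) →
    (∃ t, (collect (enXV (q.2.1, v)) t)[i * 2 ^ q.2.2.1 + q.2.2.2]? = some x') →
    K x' (ξ, v) ≤ 2 * Nat.size (encode q) + c :=
  transferV primrec_enU primrec_enXV (fun z : PQ × VV => (z.2.1, z.1.1))
    (fun z => (z.1.2.1, z.2)) (fun q i => i * 2 ^ q.2.2.1 + q.2.2.2)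
    (Primrec.pair (Primrec.fst.comp Primrec.snd) (Primrec.fst.comp Primrec.fst))
    (Primrec.pair (Primrec.fst.comp (Primrec.snd.comp Primrec.fst)) Primrec.snd)
    (Primrec.nat_add.comp (Primrec.nat_mul.comp Primrec.snd (primrec_pow.comp (Primrec.const 2)
      (Primrec.fst.comp (Primrec.snd.comp (Primrec.snd.comp Primrec.fst)))))
      (Primrec.snd.comp (Primrec.snd.comp (Primrec.snd.comp Primrec.fst))))

theorem size_encode_PQ (τ md r ρ X : ℕ)
    (hτ : Nat.size τ ≤ X) (hmd : Nat.size md ≤ X) (hr : Nat.size r ≤ X) (hρ : Nat.size ρ ≤ X) :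
    Nat.size (encode ((τ, md, r, ρ) : PQ)) ≤ 8 * X := by
  have e : encode ((τ, md, r, ρ) : PQ) =
      Nat.pair τ (Nat.pair md (Nat.pair r ρ)) := rfl
  rw [e]
  have h1 := size_pair_le r ρ
  have h2 := size_pair_le md (Nat.pair r ρ)
  have h3 := size_pair_le τ (Nat.pair md (Nat.pair r ρ))
  omega

theorem hd_set (W : Tup) (x' : List Bool) (h : 0 < W.length) : hd (W.set 0 x') = x' := by
  unfold hd
  rw [List.getD_eq_getElem?_getD, List.getElem?_set]
  simp [h]

theorem set_set_hd (W : Tup) (x' : List Bool) (h : 0 < W.length) :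
    (W.set 0 x').set 0 (hd W) = W := by
  rw [List.set_set]
  obtain ⟨a, W', rfl⟩ : ∃ a W', W = a :: W' := by
    cases W with
    | nil => simp at h
    | cons a W' => exact ⟨a, W', rfl⟩
  simp only [List.set_cons_zero]
  rfl

theorem size_add' (a b : ℕ) : Nat.size (a + b) ≤ Nat.size a + b + 1 := by
  have h1 := size_add_le a b
  have h2 := size_le_self b
  omega

theorem size_four (n b : ℕ) : Nat.size (4 * n + b) ≤ Nat.size n + 4 + b := by
  have h1 := size_add_le (4 * n) b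
  have h2 := size_le_self b
  have h3 := size_mul_le 4 n
  have h4 : Nat.size 4 = 3 := by decide
  omega

/-- the finite combinatorial part: the index set of the first components with large sections -/
theorem stageU (Idx : List (List ℕ)) (len : ℕ) (F : List Tup) (m B0 κ e : ℕ)
    (AB : List (ℕ × ℕ)) (hG : Good Idx len (κ, m, B0, AB) F) (hmB : m + B0 ≤ κ + e) :
    ∃ U : Finset (List Bool), (∀ ξ ∈ U, ∃ t, enU (F, B0 + 1 - (e + 4)) t = some ξ) ∧
      2 ^ (m + 1 - (e + 4)) ≤ U.card := by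
  classical
  obtain ⟨g1, g2, g3, g4, -⟩ := hG
  simp only at g2 g3 g4
  have hFnd : F.Nodup := by rw [← g1]; exact nodup_dd F
  have hcardF : F.toFinset.card = F.length := List.toFinset_card_of_nodup hFnd
  have hsecF : ∀ ξ, (F.toFinset.filter (fun W => hd W = ξ)).card = (secH F ξ).length := by
    intro ξ
    unfold secH
    rw [← List.toFinset_card_of_nodup (hFnd.filter _), List.toFinset_filter]
    simp
  have himF : (F.toFinset.image hd).card = (imH F).length := by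
    unfold imH
    rw [length_dd]
    congr 1
    ext ξ
    simp
  have hsec0 : ∀ ξ, ¬ (∃ W ∈ F, hd W = ξ) → secH F ξ = [] := by
    intro ξ hξ
    unfold secH
    rw [List.filter_eq_nil_iff]
    intro W hW
    simp only [decide_eq_true_eq]
    exact fun h => hξ ⟨W, hW, h⟩
  obtain ⟨U, hU1, hU2⟩ := count_large F.toFinset hd (m + 1) (B0 + 1) κ 0 (e + 2)
    (by rw [hcardF]; exact g2) (by
      intro ξ
      rw [hsecF]
      by_cases hξ : ∃ W ∈ F, hd W = ξ
      · obtain ⟨W, hW, rfl⟩ := hξ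
        refine lt_of_le_of_lt (g4 W hW).2 ?_
        exact Nat.pow_lt_pow_right (by norm_num) (by omega)
      · rw [hsec0 ξ hξ, List.length_nil]
        positivity) (by
      rw [himF]
      refine lt_of_le_of_lt g3 ?_
      exact Nat.pow_lt_pow_right (by norm_num) (by omega)) (by omega)
  have he : 0 + (e + 2) + 2 = e + 4 := by omega
  rw [he] at hU1 hU2
  refine ⟨U, fun ξ hξ => ?_, hU2⟩
  have a1 := hU1 ξ hξ
  rw [hsecF] at a1
  rw [mem_enU]
  refine ⟨?_, a1⟩
  by_contra hcon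
  rw [hsec0 ξ hcon, List.length_nil] at a1
  have : 0 < 2 ^ (B0 + 1 - (e + 4)) := by positivity
  omega

/-- the choice of the first component and of the tuple -/
theorem stageW : ∃ c : ℕ,
    ∀ (Idx : List (List ℕ)) (len : ℕ) (F : List Tup) (w' x' : List Bool) (m B0 κ e d n : ℕ)
    (AB : List (ℕ × ℕ)),
    Good Idx len (κ, m, B0, AB) F → m + B0 ≤ κ + e → m ≤ n → B0 ≤ n →
    K x' (F, w') ≤ m + d → ∃ W ∈ F, K x' (hd W, (F, w')) ≤ c * (Nat.size n + d + e + 1) ∧
      K (hd W) (x', (F, w')) ≤ c * (Nat.size n + d + e + 1) ∧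
      B0 + 1 - (e + 4) ≤ K W (hd W, (F, w')) := by
  classical
  obtain ⟨cf, hf⟩ := fwd
  obtain ⟨cb, hb⟩ := bwd
  refine ⟨64 + cf + cb, ?_⟩
  intro Idx len F w' x' m B0 κ e d n AB hG hmB hmn hBn hx1
  obtain ⟨U, hUen, hU2⟩ := stageU Idx len F m B0 κ e AB hG hmB
  obtain ⟨g1, -, -, -, -⟩ := hG
  have hFnd : F.Nodup := by rw [← g1]; exact nodup_dd F
  clear g1 hmB
  set v : VV := (F, w') with hv
  obtain ⟨L, hL⟩ : ∃ L, L = Nat.size n + d + e + 1 := ⟨_, rfl⟩
  rw [← hL]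
  obtain ⟨τ, hτ⟩ : ∃ τ, τ = B0 + 1 - (e + 4) := ⟨_, rfl⟩
  rw [← hτ] at hUen ⊢
  obtain ⟨md, hmd⟩ : ∃ md, md = m + d := ⟨_, rfl⟩
  rw [← hmd] at hx1
  obtain ⟨t1, i1, hi1⟩ := exists_index (enXV (md, v)) x' ((mem_enXV md v x').2 hx1)
  have hi1lt : i1 < 2 ^ (md + 1) := by
    have a1 := card_le v md (collect (enXV (md, v)) t1).toFinset (by
      intro a ha
      rw [List.mem_toFinset, mem_collect] at ha
      obtain ⟨j, _, hj⟩ := ha
      exact (mem_enXV md v a).1 ⟨j, hj⟩)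
    rw [List.toFinset_card_of_nodup (nodup_collect _ _)] at a1
    have a2 := (List.getElem?_eq_some_iff.1 hi1).1
    omega
  obtain ⟨r, hr⟩ : ∃ r, r = e + 4 + d := ⟨_, rfl⟩
  have hidiv : i1 / 2 ^ r < U.card := by
    refine lt_of_lt_of_le ?_ hU2
    rw [Nat.div_lt_iff_lt_mul (by positivity), ← pow_add]
    exact lt_of_lt_of_le hi1lt (Nat.pow_le_pow_right (by norm_num) (by omega))
  obtain ⟨t2, ξ, hξ⟩ := exists_nth_of_card (enU (F, τ)) U hUen (i1 / 2 ^ r) hidiv
  have hLr : r ≤ L + 3 := by omega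
  have a1 : Nat.size τ ≤ L + 3 := by
    have b1 : τ ≤ n + 1 := by omega
    have b2 := size_mono b1
    have b3 := size_add' n 1
    omega
  have a2 : Nat.size md ≤ L + 3 := by
    have b1 := size_add' m d
    have b2 := size_mono hmn
    rw [hmd]
    omega
  have a3 : Nat.size r ≤ L + 3 := (size_le_self r).trans hLr
  have hKξ : K ξ (x', v) ≤ 16 * (L + 3) + cf := by
    have a4 := hf (τ, md, r, 0) v x' ξ i1 ⟨t1, hi1⟩ ⟨t2, hξ⟩
    have a5 := size_encode_PQ τ md r 0 (L + 3) a1 a2 a3 (by simp)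
    omega
  have hKx : K x' (ξ, v) ≤ 16 * (L + 3) + cb := by
    have a4 := hb (τ, md, r, i1 % 2 ^ r) v ξ x' (i1 / 2 ^ r) ⟨t2, hξ⟩ ⟨t1, by
      show (collect (enXV (md, v)) t1)[i1 / 2 ^ r * 2 ^ r + i1 % 2 ^ r]? = some x'
      rw [Nat.div_add_mod']
      exact hi1⟩
    have a5 := size_encode_PQ τ md r (i1 % 2 ^ r) (L + 3) a1 a2 a3 (by
      refine le_trans ?_ hLr
      rw [Nat.size_le]
      exact Nat.mod_lt _ (by positivity))
    omega
  obtain ⟨-, hsecξ⟩ := (mem_enU F τ ξ).1 (collect_getElem?_mem _ _ _ _ hξ)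
  obtain ⟨W, hWF, hWτ⟩ : ∃ W ∈ secH F ξ, τ ≤ K W (ξ, v) := by
    by_contra hcon
    push Not at hcon
    have a4 := card_lt (ξ, v) τ (secH F ξ).toFinset (by
      intro a ha
      rw [List.mem_toFinset] at ha
      exact hcon a ha)
    have a5 : (secH F ξ).toFinset.card = (secH F ξ).length :=
      List.toFinset_card_of_nodup (hFnd.filter _)
    omega
  have hWF' : W ∈ F ∧ hd W = ξ := by
    unfold secH at hWF
    rw [List.mem_filter] at hWF
    exact ⟨hWF.1, by simpa using hWF.2⟩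
  obtain ⟨hWmem, hWhd⟩ := hWF'
  have hLpos : 1 ≤ L := by omega
  have hcL : (64 + cf + cb) * L = 64 * L + (cf + cb) * L := by ring
  have hcL2 : cf + cb ≤ (cf + cb) * L := Nat.le_mul_of_pos_right _ hLpos
  refine ⟨W, hWmem, ?_, ?_, ?_⟩
  · rw [hWhd, hcL]
    clear hWτ hsecξ a1 a2 a3 hKξ hidiv hi1lt
    omega
  · rw [hWhd, hcL]
    clear hWτ hsecξ a1 a2 a3 hKx hidiv hi1lt
    omega
  · rw [hWhd]; exact hWτ

/-- arithmetic for the last step -/
theorem stage_ar {a b m B0 e d sn L c1 c2 c1h c2h c3 c4 c5 c6 c7 KW PS q sPS P' Kξx sP' ξv τ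
    sKW X sξ E Kx'ξ : ℕ}
    (b3 : a + b ≤ m + B0 + e) (q2 : q ≤ b + 1 + c2)
    (q3 : KW ≤ PS + q + 2 * sPS + c4) (s2 : sPS ≤ sn + 3 + c1)
    (q5 : PS ≤ P' + Kξx + 2 * sP' + c7) (hξx : Kξx ≤ E) (hxξ : Kx'ξ ≤ E)
    (s3 : sP' ≤ sn + 20 + 3 * c1 + c7 + E + 2 * sn)
    (low : ξv + τ ≤ KW + 6 * sKW + c3) (s1 : sKW ≤ sn + 15 + 3 * c1h + c2h + c6)
    (hx : X ≤ ξv + Kx'ξ + 2 * sξ + c5) (s0 : sξ ≤ sn + 3 + c1h) (hx2 : m ≤ X + d)
    (hτ : B0 + 1 ≤ τ + (e + 4)) (hsn : sn ≤ L) (hd : d ≤ L) (he : e ≤ L) (hL : 1 ≤ L) :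
    a ≤ P' + (4 * E + 500 * L + 50 * (c1 + c2 + c1h + c2h + c3 + c4 + c5 + c6 + c7)) := by
  linarith

theorem stage (Idx : List (List ℕ)) (len : ℕ) (hlen : 0 < len) : ∃ c : ℕ,
    ∀ (F : List Tup) (w' x' : List Bool) (m B0 κ e d n : ℕ) (AB : List (ℕ × ℕ)),
    Good Idx len (κ, m, B0, AB) F → m + B0 ≤ κ + e → m ≤ n → B0 ≤ n →
    K x' (F, w') ≤ m + d → m ≤ K x' (F, w') + d →
    (∀ r ∈ Idx.zip AB, r.2.1 ≤ n ∧ r.2.2 ≤ n ∧ r.2.1 + r.2.2 ≤ m + B0 + e) →
    ∃ Z' : Tup, Z'.length = len ∧ hd Z' = x' ∧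
      ∀ r ∈ Idx.zip AB, K (sel r.1 Z') (F, w') ≤ r.2.1 + c * (Nat.size n + d + e + 1) ∧
        r.2.1 ≤ K (sel r.1 Z') (F, w') + c * (Nat.size n + d + e + 1) := by
  classical
  obtain ⟨c1, h1⟩ := exists_unif Idx (fun idx c => ∀ (F : List Tup) (w : List Bool) (j : ℕ),
    (imS F idx).length ≤ 2 ^ j → ∀ W ∈ F, K (sel idx W) (F, w) ≤ j + c)
    (fun i c c' hc h F w j hj W hW => (h F w j hj W hW).trans (by omega))
    (fun idx _ => K_imS idx)
  obtain ⟨c2, h2⟩ := exists_unif Idx (fun idx c => ∀ (F : List Tup) (w : List Bool) (j : ℕ),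
    ∀ W ∈ F, (secS F (idx, sel idx W)).length ≤ 2 ^ j → K W (sel idx W, (F, w)) ≤ j + c)
    (fun i c c' hc h F w j W hW hj => (h F w j W hW hj).trans (by omega))
    (fun idx _ => K_secS idx)
  obtain ⟨c1h, h1h⟩ := K_imH
  obtain ⟨c2h, h2h⟩ := K_secH
  obtain ⟨c3, h3⟩ := K_hard (α := List Bool) (β := Tup) (γ := VV) hd primrec_hd
  obtain ⟨c4, h4⟩ := K_chain (α := Tup) (β := Tup) (γ := VV)
  obtain ⟨c5, h5⟩ := K_chain (α := List Bool) (β := List Bool) (γ := VV)
  obtain ⟨c6, h6⟩ := K_chain (α := List Bool) (β := Tup) (γ := VV)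
  obtain ⟨c7, h7⟩ := exists_unif Idx (fun idx c => ∀ (W : List (List Bool)) (x' : List Bool)
    (v : VV), 0 < W.length → K (sel idx (W.set 0 x')) v ≤ K (sel idx W) v + K x' (hd W, v)
      + 2 * Nat.size (K (sel idx W) v) + c)
    (fun i c c' hc h W x' v hW => (h W x' v hW).trans (by omega))
    (fun idx _ => replace_boundV idx)
  obtain ⟨cE, hE⟩ := stageW
  refine ⟨4 * cE + 500 + 50 * (c1 + c2 + c1h + c2h + c3 + c4 + c5 + c6 + c7), ?_⟩
  intro F w' x' m B0 κ e d n AB hG hmB hmn hBn hx1 hx2 hAB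
  obtain ⟨W, hWmem, hKx, hKξ, hWτ⟩ := hE Idx len F w' x' m B0 κ e d n AB hG hmB hmn hBn hx1
  clear hE
  obtain ⟨-, -, g3, g4, g5⟩ := hG
  simp only at g3 g4 g5
  have hWlen := (g4 W hWmem).1
  have hWm : K (hd W) (F, w') ≤ m + 1 + c1h := h1h F w' (m + 1) g3 W hWmem
  have hWB : K W (hd W, (F, w')) ≤ B0 + 1 + c2h := h2h F w' (B0 + 1) W hWmem (g4 W hWmem).2
  have low0 := h3 W (F, w')
  have hxξ0 := h5 (hd W) x' (F, w')
  have hKW0 := h6 (hd W) W (F, w')
  have hWpos : 0 < W.length := by rw [hWlen]; exact hlen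
  have hset : hd (W.set 0 x') = x' := hd_set W x' hWpos
  have hback : (W.set 0 x').set 0 (hd W) = W := set_set_hd W x' hWpos
  refine ⟨W.set 0 x', by rw [List.length_set]; exact hWlen, hset, ?_⟩
  intro rr hrr
  obtain ⟨b1, b2, b3⟩ := hAB rr hrr
  have hidx : rr.1 ∈ Idx := (List.of_mem_zip hrr).1
  obtain ⟨p1, p2⟩ := g5 rr hrr
  have q1 : K (sel rr.1 W) (F, w') ≤ rr.2.1 + 1 + c1 :=
    h1 rr.1 hidx F w' (rr.2.1 + 1) p1 W hWmem
  have q2 : K W (sel rr.1 W, (F, w')) ≤ rr.2.2 + 1 + c2 :=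
    h2 rr.1 hidx F w' (rr.2.2 + 1) W hWmem (p2 W hWmem)
  have q3 := h4 (sel rr.1 W) W (F, w')
  have q4 := h7 rr.1 hidx W x' (F, w') hWpos
  have q5 := h7 rr.1 hidx (W.set 0 x') (hd W) (F, w') (by rw [List.length_set]; exact hWpos)
  rw [hset, hback] at q5
  clear h1 h2 h1h h2h h3 h4 h5 h6 h7 hAB g3 g4 g5 p1 p2 hidx hrr hset hback hWpos hWlen hWmem
  generalize ((F, w') : VV) = v at *
  generalize hLdef : Nat.size n + d + e + 1 = L at hKx hKξ ⊢
  have hsn : Nat.size n ≤ L := by omega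
  have hdL : d ≤ L := by omega
  have heL : e ≤ L := by omega
  have hL1 : 1 ≤ L := by omega
  have hτ : B0 + 1 ≤ (B0 + 1 - (e + 4)) + (e + 4) := by omega
  have hsn' : Nat.size n ≤ n := size_le_self n
  clear hLdef
  generalize (B0 + 1 - (e + 4)) = τ at hWτ hτ
  generalize K x' v = X at hx1 hx2 hxξ0
  generalize K x' (hd W, v) = Kx'ξ at *
  generalize K (hd W) (x', v) = Kξx at *
  generalize K W (hd W, v) = KWξ at *
  generalize K W (sel rr.1 W, v) = q at *
  -- sizes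
  have s0 : Nat.size (K (hd W) v) ≤ Nat.size n + 3 + c1h := by
    have a0 : K (hd W) v ≤ n + (1 + c1h) := by linarith only [hWm, hmn]
    have a1 := size_mono a0
    have a2 := size_add' n (1 + c1h)
    linarith only [a1, a2]
  have s1 : Nat.size (K W v) ≤ Nat.size n + 15 + 3 * c1h + c2h + c6 := by
    have a0 : K W v ≤ 4 * n + (8 + 3 * c1h + c2h + c6) := by
      linarith only [hKW0, s0, hWm, hWB, hmn, hBn, hsn']
    have a1 := size_mono a0
    have a2 := size_four n (8 + 3 * c1h + c2h + c6)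
    linarith only [a1, a2]
  have s2 : Nat.size (K (sel rr.1 W) v) ≤ Nat.size n + 3 + c1 := by
    have a0 : K (sel rr.1 W) v ≤ n + (1 + c1) := by linarith only [q1, b1]
    have a1 := size_mono a0
    have a2 := size_add' n (1 + c1)
    linarith only [a1, a2]
  have hup : K (sel rr.1 (W.set 0 x')) v ≤ rr.2.1 + (7 + 3 * c1 + cE * L + 2 * Nat.size n + c7) := by
    linarith only [q4, q1, s2, hKx]
  have s3 : Nat.size (K (sel rr.1 (W.set 0 x')) v) ≤
      Nat.size n + 20 + 3 * c1 + c7 + cE * L + 2 * Nat.size n := by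
    have a0 : K (sel rr.1 (W.set 0 x')) v ≤ n +
      (7 + 3 * c1 + cE * L + 2 * Nat.size n + c7) := by linarith only [hup, b1]
    have a1 := size_mono a0
    have a2 := size_add' n (7 + 3 * c1 + cE * L + 2 * Nat.size n + c7)
    linarith only [a1, a2]
  have low : K (hd W) v + τ ≤ K W v + 6 * Nat.size (K W v) + c3 := by
    linarith only [low0, hWτ]
  have key := stage_ar b3 q2 q3 s2 q5 hKξ hKx s3 low s1 hxξ0 s0 hx2 hτ hsn hdL heL hL1
  generalize hCC : c1 + c2 + c1h + c2h + c3 + c4 + c5 + c6 + c7 = C at *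
  have hdist : (4 * cE + 500 + 50 * C) * L = 4 * (cE * L) + 500 * L + 50 * (C * L) := by ring
  have hcL : C ≤ C * L := Nat.le_mul_of_pos_right _ hL1
  have hc17 : c1 ≤ C ∧ c7 ≤ C := by constructor <;> omega
  rw [hdist]
  constructor
  · have h8 : 7 + 3 * c1 + cE * L + 2 * Nat.size n + c7 ≤
        4 * (cE * L) + 500 * L + 50 * (C * L) := by
      have := hc17.1
      have := hc17.2
      have h9 : 0 ≤ cE * L := Nat.zero_le _
      linarith only [hc17.1, hc17.2, hcL, hsn, hL1, h9]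
    linarith only [hup, h8]
  · linarith only [key, hcL]

end Pool.Agent.Y576.PR
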