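import Mathlib
import Pool.Agent.Y576.PR.Core

/-!
# Strings of a prescribed complexity close to a given string
-/

set_option autoImplicit false

namespace Pool.Agent.Y576.PR

open Encodable Pool.Agent.Helper760.Kolm

/-- the unary code of a pair of strings -/
def ucode (z : List Bool × List Bool) : List Bool := (List.range (encode z)).map (fun _ => true)

theorem primrec_ucode : Primrec ucode :=
  Primrec.list_map (Primrec.list_range.comp Primrec.encode) (Primrec.const true).to₂

theorem length_ucode (z : List Bool × List Bool) : (ucode z).length = encode z := by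
  unfold ucode
  simp

/-- decoding -/
def udec (s : List Bool) : List Bool × List Bool :=
  (decode (α := List Bool × List Bool) s.length).getD ([], [])

theorem primrec_udec : Primrec udec :=
  Primrec.option_getD.comp (Primrec.decode.comp Primrec.list_length) (Primrec.const ([], []))

theorem udec_ucode (z : List Bool × List Bool) : udec (ucode z) = z := by
  unfold udec
  rw [length_ucode, encodek, Option.getD_some]

variable {V : Type*} [Primcodable V]

/-- enlarging the complexity -/
theorem lip_up : ∃ c : ℕ, ∀ (x : List Bool) (v : V) (m' : ℕ), K x v ≤ m' →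
    ∃ ζ : List Bool, K ζ v ≤ m' + 2 * Nat.size m' + c ∧
      m' ≤ K ζ v + 6 * Nat.size (K ζ v + c) + c ∧ K x (ζ, v) ≤ c ∧
      K ζ (x, v) ≤ (m' - K x v) + c := by
  classical
  obtain ⟨c1, h1⟩ := K_param (γ := Unit) (β := List Bool × V) (α := List Bool)
    (fun z => Part.some (ucode (z.2.2.1, z.2.1)))
    ((primrec_ucode.comp (Primrec.pair (Primrec.fst.comp (Primrec.snd.comp Primrec.snd))
      (Primrec.fst.comp Primrec.snd))).to_comp.partrec)
  obtain ⟨c2, h2⟩ := K_param (γ := Unit) (β := List Bool × V) (α := List Bool)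
    (fun z => Part.some (udec z.2.2.1).1)
    ((Primrec.fst.comp (primrec_udec.comp (Primrec.fst.comp (Primrec.snd.comp
      Primrec.snd)))).to_comp.partrec)
  obtain ⟨c3, h3⟩ := K_hard (α := List Bool) (β := List Bool × List Bool) (γ := V) Prod.fst
    Primrec.fst
  obtain ⟨c4, h4⟩ := K_map (V := V) udec primrec_udec.to_comp
  obtain ⟨c5, h5⟩ := K_map (V := List Bool × V) (Prod.snd (α := List Bool) (β := List Bool))
    Computable.snd
  obtain ⟨c6, h6⟩ := K_chain (α := List Bool) (β := List Bool) (γ := V)
  refine ⟨c1 + c2 + c3 + c4 + c5 + c6, fun x v m' hm => ?_⟩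
  set Δ := m' - K x v with hΔ
  obtain ⟨s, hs, hsK⟩ : ∃ s ∈ allLen Δ, Δ ≤ K s (x, v) := by
    by_contra hcon
    push Not at hcon
    have a1 := card_lt (x, v) Δ (allLen Δ).toFinset (by
      intro a ha
      rw [List.mem_toFinset] at ha
      exact hcon a ha)
    rw [List.toFinset_card_of_nodup (nodup_allLen Δ), length_allLen] at a1
    exact absurd a1 (lt_irrefl _)
  rw [mem_allLen] at hs
  have e1 := h1 () s (x, v) (ucode (x, s)) (Part.mem_some _)
  have e2 := h2 () [] (ucode (x, s), v) x (by
    have : (udec (ucode (x, s))).1 = x := by rw [udec_ucode]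
    simp only [this]
    exact Part.mem_some _)
  have e3 := h3 (x, s) v
  have e4 := h4 (ucode (x, s)) v
  rw [udec_ucode] at e4
  have e5 := h5 (x, s) (x, v)
  have e6 := h6 x (ucode (x, s)) v
  simp only [size_encode_unit, List.length_nil] at e1 e2 e3 e5
  have e7 : Nat.size (K (x, s) v) ≤ Nat.size (K (ucode (x, s)) v + (c1 + c2 + c3 + c4 + c5 + c6)) :=
    size_mono (by omega)
  have e8 : Nat.size (K x v) ≤ Nat.size m' := size_mono hm
  refine ⟨ucode (x, s), by omega, by omega, by omega, by omega⟩

/-- lowering the complexity -/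
theorem lip_down : ∃ c : ℕ, ∀ (x : List Bool) (v : V) (m' : ℕ), m' ≤ K x v →
    ∃ ζ : List Bool, K ζ v ≤ m' + c ∧ m' ≤ K ζ v + 2 * Nat.size (m' + c) + c ∧
      K x (ζ, v) ≤ (K x v - m') + c ∧
      K ζ (x, v) ≤ 2 * Nat.size m' + 6 * Nat.size (K x v + 2 * Nat.size m' + c) + c := by
  classical
  obtain ⟨c1, h1⟩ := K_param (γ := Unit) (β := V) (α := List Bool)
    (fun z => Part.some z.2.1) (Computable.fst.comp Computable.snd).partrec
  -- x from the two halves of its program
  obtain ⟨c2, h2⟩ := K_param (γ := Unit) (β := List Bool × V) (α := List Bool)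
    (fun z => (M (z.2.2.1 ++ z.2.1) (encode z.2.2.2)).bind fun n =>
      Part.ofOption (decode (α := List Bool) n)) (by
      refine Partrec.bind ?_ ?_
      · refine partrec_M.comp ?_ ?_
        · exact (Primrec.list_append.comp (Primrec.fst.comp (Primrec.snd.comp Primrec.snd))
            (Primrec.fst.comp Primrec.snd)).to_comp
        · exact (Primrec.encode.comp (Primrec.snd.comp (Primrec.snd.comp Primrec.snd))).to_comp
      · exact (Computable.decode.comp Computable.snd).ofOption)
  obtain ⟨c3, h3⟩ := K_chain (α := List Bool) (β := List Bool) (γ := V)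
  -- the pair (ζ, x) from the program
  obtain ⟨c4, h4⟩ := K_param (γ := ℕ) (β := V) (α := List Bool × List Bool)
    (fun z => (M z.2.1 (encode z.2.2)).bind fun n =>
      (Part.ofOption (decode (α := List Bool) n)).map fun x => (z.2.1.take z.1, x)) (by
      refine Partrec.bind ?_ ?_
      · exact partrec_M.comp (Computable.fst.comp Computable.snd)
          ((Primrec.encode.comp (Primrec.snd.comp Primrec.snd)).to_comp)
      · refine Partrec.map ((Computable.decode.comp Computable.snd).ofOption) ?_
        refine Primrec₂.to_comp ?_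
        exact Primrec.pair (Primrec.list_take.comp
          (Primrec.fst.comp (Primrec.fst.comp Primrec.fst))
          (Primrec.fst.comp (Primrec.snd.comp (Primrec.fst.comp Primrec.fst)))) Primrec.snd)
  obtain ⟨c5, h5⟩ := K_hard (α := List Bool) (β := List Bool × List Bool) (γ := V) Prod.snd
    Primrec.snd
  obtain ⟨c6, h6⟩ := K_map (V := List Bool × V) (Prod.fst (α := List Bool) (β := List Bool))
    Computable.fst
  refine ⟨c1 + c2 + c3 + c4 + c5 + c6, fun x v m' hm => ?_⟩
  obtain ⟨p, hp, hpl⟩ := K_spec x v
  have e1 := h1 () (p.take m') v (p.take m') (Part.mem_some _)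
  have e2 := h2 () (p.drop m') (p.take m', v) x (by
    simp only [Part.mem_bind_iff, List.take_append_drop]
    exact ⟨encode x, hp, by simp⟩)
  have e3 := h3 (p.take m') x v
  have e4 := h4 m' p v (p.take m', x) (by
    simp only [Part.mem_bind_iff, Part.mem_map_iff]
    exact ⟨encode x, hp, x, by simp, rfl⟩)
  have e5 := h5 (p.take m', x) v
  have e6 := h6 (p.take m', x) (x, v)
  simp only [size_encode_unit, List.length_take, List.length_drop, encode_nat] at e1 e2 e4 e5 e6
  have e7 : Nat.size (K (p.take m') v) ≤ Nat.size (m' + (c1 + c2 + c3 + c4 + c5 + c6)) :=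
    size_mono (by omega)
  have e8 : Nat.size (K (p.take m', x) v) ≤
      Nat.size (K x v + 2 * Nat.size m' + (c1 + c2 + c3 + c4 + c5 + c6)) :=
    size_mono (by omega)
  refine ⟨p.take m', by omega, by omega, by omega, by omega⟩

/-- a string of the prescribed complexity close to `x` -/
theorem lip : ∃ c : ℕ, ∀ (x : List Bool) (v : V) (m' n : ℕ), K x v ≤ n → m' ≤ n →
    ∃ ζ : List Bool, K ζ v ≤ m' + c * (Nat.size n + 1) ∧ m' ≤ K ζ v + c * (Nat.size n + 1) ∧
      K x (ζ, v) ≤ (K x v - m') + c * (Nat.size n + 1) ∧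
      K ζ (x, v) ≤ (m' - K x v) + c * (Nat.size n + 1) := by
  obtain ⟨c1, h1⟩ := lip_up (V := V)
  obtain ⟨c2, h2⟩ := lip_down (V := V)
  refine ⟨1000 + 100 * (c1 + c2), fun x v m' n hx hm => ?_⟩
  have hdist : (1000 + 100 * (c1 + c2)) * (Nat.size n + 1) =
      1000 * (Nat.size n + 1) + 100 * ((c1 + c2) * (Nat.size n + 1)) := by ring
  have hcL : c1 + c2 ≤ (c1 + c2) * (Nat.size n + 1) := Nat.le_mul_of_pos_right _ (by omega)
  have s1 := size_mono hm
  have s2 := size_mono hx
  have s3 := size_le_self n
  rw [hdist]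
  rcases le_total (K x v) m' with hle | hle
  · obtain ⟨ζ, a1, a2, a3, a4⟩ := h1 x v m' hle
    have b1 : Nat.size (K ζ v + c1) ≤ Nat.size n + 4 + 2 * c1 := by
      have b0 : K ζ v + c1 ≤ 4 * n + 2 * c1 := by omega
      have b2 := size_mono b0
      have b3 := size_add_le (4 * n) (2 * c1)
      have b4 := size_mul_le 4 n
      have b5 : Nat.size 4 = 3 := by decide
      have b6 := size_le_self (2 * c1)
      omega
    exact ⟨ζ, by omega, by omega, by omega, by omega⟩
  · obtain ⟨ζ, a1, a2, a3, a4⟩ := h2 x v m' hle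
    have b1 : Nat.size (m' + c2) ≤ Nat.size n + c2 + 1 := by
      have b2 := size_add_le m' c2
      have b3 := size_le_self c2
      omega
    have b2 : Nat.size (K x v + 2 * Nat.size m' + c2) ≤ Nat.size n + 4 + c2 := by
      have b0 : K x v + 2 * Nat.size m' + c2 ≤ 4 * n + c2 := by omega
      have b2 := size_mono b0
      have b3 := size_add_le (4 * n) c2
      have b4 := size_mul_le 4 n
      have b5 : Nat.size 4 = 3 := by decide
      have b6 := size_le_self c2
      omega
    exact ⟨ζ, by omega, by omega, by omega, by omega⟩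

end Pool.Agent.Y576.PR
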