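import Mathlib
import Pool.Agent.Y576.PR.Core3
import Pool.Agent.Y576.PR.Lip

/-!
# Transfer of profiles between conditions
-/

set_option autoImplicit false

namespace Pool.Agent.Y576.PR

open Encodable Pool.Agent.Helper760.Kolm

theorem coreW (Idx : List (List ℕ)) (len : ℕ) (hlen : 0 < len) : ∃ c : ℕ,
    ∀ (Z : Tup) (x' w w' : List Bool) (n d : ℕ), Z.length = len →
    (∀ idx ∈ Idx, K (sel idx Z) w ≤ n ∧ K Z (sel idx Z, w) ≤ n) →
    K Z w ≤ n → K (hd Z) w ≤ n → K Z (hd Z, w) ≤ n →
    K x' w' ≤ K (hd Z) w + d → K (hd Z) w ≤ K x' w' + d →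
    ∃ Z' : Tup, Z'.length = len ∧ hd Z' = x' ∧
      ∀ idx ∈ Idx, K (sel idx Z') w' ≤ K (sel idx Z) w + c * (Nat.size n + d + 1) ∧
        K (sel idx Z) w ≤ K (sel idx Z') w' + c * (Nat.size n + d + 1) := by
  classical
  obtain ⟨cI, hI⟩ := exists_large Idx len
  obtain ⟨cs, hs⟩ := exists_simple (V := List Bool) Idx len
  obtain ⟨c3, h3⟩ := K_hard (α := List Bool) (β := Tup) (γ := List Bool) hd primrec_hd
  obtain ⟨ch, hh⟩ := exists_unif Idx (fun idx c => ∀ (W : Tup) (w : List Bool),
    K (sel idx W) w + K W (sel idx W, w) ≤ K W w + 6 * Nat.size (K W w) + c)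
    (fun i c c' hc h W w => (h W w).trans (by omega))
    (fun idx _ => K_hard (α := Tup) (β := Tup) (γ := List Bool) (sel idx)
      (primrec_sel.comp (Primrec.const idx) Primrec.id))
  obtain ⟨cc, hcc⟩ := K_chain (α := List Bool) (β := Tup) (γ := List Bool)
  obtain ⟨k1, hk1⟩ := K_chain (α := List Tup) (β := Tup) (γ := List Bool)
  obtain ⟨k2, hk2⟩ := K_chain (α := List Tup) (β := List Bool) (γ := List Bool)
  obtain ⟨d1, hd1⟩ := K_cond (δ := Tup) (Prod.snd (α := List Tup) (β := List Bool))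
    Computable.snd
  obtain ⟨d2, hd2⟩ := K_cond (δ := List Bool) (Prod.snd (α := List Tup) (β := List Bool))
    Computable.snd
  obtain ⟨cst, hst⟩ := stage Idx len hlen
  set k := Idx.length with hk
  set g0 := 16 * 4 ^ k with hg0
  set C := cI + cs + c3 + ch + cc + k1 + k2 + d1 + d2 with hC
  set X := 1000 * g0 + 1000 + 1000 * C with hX
  refine ⟨(cst + 1) * X, ?_⟩
  intro Z x' w w' n d hZlen hAB hZn hm hB hxd hdx
  set L := Nat.size n + d + 1 with hL
  set m := K (hd Z) w with hmdef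
  set B0 := K Z (hd Z, w) with hB0
  set Kz := K Z w with hKz
  set AB := Idx.map (fun idx => (K (sel idx Z) w, K Z (sel idx Z, w))) with hABdef
  set g : GP := (m, B0, AB) with hg
  set G := Nat.size (encode g) with hG
  have hGle : G ≤ g0 * L := by
    have e : encode g = Nat.pair m (Nat.pair B0 (encode AB)) := rfl
    have e1 := size_encode_list AB n (by
      intro p hp
      rw [hABdef, List.mem_map] at hp
      obtain ⟨idx, hidx, rfl⟩ := hp
      exact hAB idx hidx)
    have e2 : AB.length = k := by rw [hABdef]; simp [hk]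
    rw [e2] at e1
    have e3 := size_pair_le B0 (encode AB)
    have e4 := size_pair_le m (Nat.pair B0 (encode AB))
    have e5 := size_mono hm
    have e6 := size_mono hB
    have e8 : 4 ^ k * (2 * Nat.size n + 1) ≤ 4 ^ k * (2 * L) :=
      Nat.mul_le_mul_left _ (by omega)
    have e9 : L ≤ 4 ^ k * L := Nat.le_mul_of_pos_left _ (by positivity)
    have e10 : 4 ^ k * (2 * L) = 2 * (4 ^ k * L) := by ring
    have e11 : g0 * L = 16 * (4 ^ k * L) := by rw [hg0]; ring
    rw [hG, e]
    omega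
  have hTypZ : Typ Idx len g.1 g.2.1 g.2.2 w Z := by
    refine ⟨hZlen, le_rfl, le_rfl, ?_⟩
    intro r hr
    obtain ⟨_, hr2⟩ := mem_zip_map Idx _ r hr
    rw [hr2]
    exact ⟨le_rfl, le_rfl⟩
  obtain ⟨F1, hF1, hF2⟩ := hI g w Z hTypZ
  obtain ⟨F₀, hF₀⟩ := good_of_typ Idx len g w _ F1 hF1 hF2
  set e1 := 2 * Nat.size (encode g) + cI with he1
  set κ := Kz - e1 with hκ
  obtain ⟨F, hF, hFK⟩ := hs (κ, g) F₀ hF₀
  have hFw := hFK w'
  have hgq : Nat.size (encode ((κ, g) : GQ)) ≤ 2 * (Nat.size n + G) := by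
    have a0 : encode ((κ, g) : GQ) = Nat.pair κ (encode g) := rfl
    have a1 := size_pair_le κ (encode g)
    have a2 : Nat.size κ ≤ Nat.size n := size_mono (by omega)
    rw [a0]
    omega
  have hsK : Nat.size Kz ≤ Nat.size n := size_mono hZn
  have hsm : Nat.size m ≤ Nat.size n := size_mono hm
  have hsF := size_le_self (K F w')
  set ε := 4 * (Nat.size n + G) + cs with hε
  have hFε : K F w' ≤ ε := by omega
  have a3 := h3 Z w
  rw [← hKz, ← hmdef, ← hB0] at a3
  have a4 := hcc (hd Z) Z w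
  rw [← hKz, ← hmdef, ← hB0] at a4
  have a5 := hd2 x' (F, w')
  simp only at a5
  have a6 := hk2 F x' w'
  set e := e1 + 8 * Nat.size n + c3 + cc + ch with he
  set d' := d + d2 + 3 * ε + k2 with hd'
  obtain ⟨Z', hZ'1, hZ'2, hZ'3⟩ := hst F w' x' m B0 κ e d' n AB hF (by omega) hm hB (by omega)
    (by omega) (by
      intro r hr
      obtain ⟨b1, b2⟩ := mem_zip_map Idx _ r hr
      obtain ⟨b3, b4⟩ := hAB r.1 b1
      have b5 := hh r.1 b1 Z w
      rw [← hKz] at b5
      rw [b2]
      refine ⟨b3, b4, ?_⟩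
      simp only
      omega)
  refine ⟨Z', hZ'1, hZ'2, ?_⟩
  intro idx hidx
  have hmem := zip_map_mem Idx (fun idx => (K (sel idx Z) w, K Z (sel idx Z, w))) idx hidx
  obtain ⟨b1, b2⟩ := hZ'3 _ hmem
  simp only at b1 b2
  have b3 := hk1 F (sel idx Z') w'
  have b4 := hd1 (sel idx Z') (F, w')
  simp only at b4
  have hXL : X * L = 1000 * (g0 * L) + 1000 * L + 1000 * (C * L) := by rw [hX]; ring
  have hCL : C ≤ C * L := Nat.le_mul_of_pos_right _ (by omega)
  have hP : Nat.size n + d' + e + 1 ≤ X * L := by omega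
  have hQ : 3 * ε + k1 + d1 ≤ X * L := by omega
  have hP' : cst * (Nat.size n + d' + e + 1) ≤ cst * (X * L) := Nat.mul_le_mul_left _ hP
  have hfin : (cst + 1) * X * L = cst * (X * L) + X * L := by ring
  rw [hfin]
  constructor
  · omega
  · omega

theorem sel_range (W : Tup) : sel (List.range W.length) W = W := by
  unfold sel
  apply List.ext_getElem
  · simp
  · intro i h1 h2
    simp only [List.getElem_map, List.getElem_range]
    rw [List.getD_eq_getElem?_getD, List.getElem?_eq_getElem h2, Option.getD_some]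

/-- The profiles of the tuples with a given first component, relative to a condition, depend only
on the complexity of the first component, and this dependence is Lipschitz. -/
theorem coreLip (Idx : List (List ℕ)) (len : ℕ) (hlen : 0 < len) : ∃ c : ℕ,
    ∀ (Z : Tup) (x' w w' : List Bool) (n : ℕ), Z.length = len → K Z w ≤ n → K x' w' ≤ n →
    ∃ Z' : Tup, Z'.length = len ∧ hd Z' = x' ∧
      ∀ idx ∈ Idx, K (sel idx Z') w' ≤ K (sel idx Z) w + (K x' w' - K (hd Z) w) +
          c * (Nat.size n + 1) ∧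
        K (sel idx Z) w ≤ K (sel idx Z') w' + (K (hd Z) w - K x' w') +
          c * (Nat.size n + 1) := by
  obtain ⟨cW, hW⟩ := coreW Idx len hlen
  obtain ⟨cl, hl⟩ := lip (V := List Bool)
  obtain ⟨c1, h1⟩ := K_map (V := List Bool) hd primrec_hd.to_comp
  obtain ⟨c2, h2⟩ := replace_boundV (V := List Bool) (List.range len)
  obtain ⟨c3, h3⟩ := exists_unif Idx (fun idx c => ∀ (W : Tup) (w : List Bool),
    K (sel idx W) w ≤ K W w + c) (fun i c c' hc h W w => (h W w).trans (by omega))
    (fun idx _ => K_map (V := List Bool) (sel idx)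
      (primrec_sel.comp (Primrec.const idx) Primrec.id).to_comp)
  obtain ⟨c4, h4⟩ := K_cond (δ := Tup) (Prod.snd (α := Tup) (β := List Bool)) Computable.snd
  obtain ⟨c5, h5⟩ := K_cond (δ := Tup) (Prod.snd (α := List Bool) (β := List Bool))
    Computable.snd
  obtain ⟨c7, h7⟩ := exists_unif Idx (fun idx c => ∀ (W : List (List Bool)) (x' : List Bool)
    (v : List Bool), 0 < W.length → K (sel idx (W.set 0 x')) v ≤ K (sel idx W) v +
      K x' (hd W, v) + 2 * Nat.size (K (sel idx W) v) + c)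
    (fun i c c' hc h W x' v hW => (h W x' v hW).trans (by omega))
    (fun idx _ => replace_boundV idx)
  set C := cl + c1 + c2 + c3 + c4 + c5 + c7 with hC
  set A := 100 * (C + 1) * (C + 1) with hA
  set D := 10 * (C + 1) * (C + 1) with hD
  refine ⟨cW * (Nat.size A + D + 3) + 10 * D + 100 * (C + 1) + Nat.size A, ?_⟩
  intro Z x' w w' n hZlen hZn hxn
  set s := Nat.size n with hs
  have hsn : s ≤ n := size_le_self n
  have e1 := h1 Z w
  set n1 := n + C with hn1
  have hs1 : Nat.size n1 ≤ s + C + 1 := size_add' n C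
  obtain ⟨ζ, z1, z2, z3, z4⟩ := hl (hd Z) w (K x' w') n1 (by omega) (by omega)
  have hE : cl * (Nat.size n1 + 1) ≤ D * (s + 1) := by
    have b1 : Nat.size n1 + 1 ≤ (C + 2) * (s + 1) := by
      have : (C + 2) * (s + 1) = C * s + C + 2 * s + 2 := by ring
      have : 0 ≤ C * s := Nat.zero_le _
      omega
    calc cl * (Nat.size n1 + 1) ≤ (C + 1) * ((C + 2) * (s + 1)) :=
          Nat.mul_le_mul (by omega) b1
      _ = ((C + 1) * (C + 2)) * (s + 1) := by ring
      _ ≤ D * (s + 1) := by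
          apply Nat.mul_le_mul_right
          rw [hD]
          nlinarith
  set E := D * (s + 1) with hEdef
  have hEn : E ≤ D * (n + 1) := Nat.mul_le_mul_left _ (by omega)
  set Z₁ := Z.set 0 ζ with hZ₁
  have hZpos : 0 < Z.length := by omega
  have hZ₁len : Z₁.length = len := by rw [hZ₁, List.length_set]; exact hZlen
  have hhd : hd Z₁ = ζ := hd_set Z ζ hZpos
  have hback : Z₁.set 0 (hd Z) = Z := set_set_hd Z ζ hZpos
  have e2 := h2 Z ζ w hZpos
  have r1 : sel (List.range len) Z = Z := by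
    have := sel_range Z
    rwa [hZlen] at this
  have r2 : sel (List.range len) Z₁ = Z₁ := by
    have := sel_range Z₁
    rwa [hZ₁len] at this
  rw [r1, ← hZ₁, r2] at e2
  have e2s : Nat.size (K Z w) ≤ n := (size_le_self _).trans hZn
  -- bounds
  have hK1 : K Z₁ w ≤ 4 * n + C + E := by omega
  set n₂ := A * (n + 1) with hn₂
  have hn₂' : 6 * n + 10 * C + 10 + 2 * E ≤ n₂ := by
    have b1 : n₂ = 100 * (C + 1) * (C + 1) * (n + 1) := by rw [hn₂, hA]
    have b2 : 2 * E ≤ 20 * ((C + 1) * (C + 1)) * (n + 1) := by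
      calc 2 * E ≤ 2 * (D * (n + 1)) := Nat.mul_le_mul_left _ hEn
        _ = _ := by rw [hD]; ring
    have b3 : C * (n + 1) + (n + 1) ≤ (C + 1) * (C + 1) * (n + 1) := by nlinarith
    have b4 : C ≤ C * (n + 1) := Nat.le_mul_of_pos_right _ (by omega)
    have b5 : 100 * (C + 1) * (C + 1) * (n + 1) = 20 * ((C + 1) * (C + 1)) * (n + 1) +
      80 * ((C + 1) * (C + 1) * (n + 1)) := by ring
    omega
  have hs2 : Nat.size n₂ ≤ Nat.size A + s + 2 := by
    have b1 : Nat.size n₂ ≤ Nat.size A + Nat.size (n + 1) := size_mul_le A (n + 1)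
    have b2 : Nat.size (n + 1) ≤ s + 1 + 1 := size_add' n 1
    linarith only [b1, b2]
  have g1 := h5 Z₁ (ζ, w)
  simp only at g1
  obtain ⟨Z', hZ'1, hZ'2, hZ'3⟩ := hW Z₁ x' w w' n₂ E hZ₁len (by
      intro idx hidx
      have b1 := h3 idx hidx Z₁ w
      have b2 := h4 Z₁ (sel idx Z₁, w)
      simp only at b2
      constructor
      · omega
      · omega) (by omega) (by rw [hhd]; omega) (by rw [hhd]; omega) (by rw [hhd]; omega)
      (by rw [hhd]; omega)
  refine ⟨Z', hZ'1, hZ'2, ?_⟩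
  intro idx hidx
  obtain ⟨b1, b2⟩ := hZ'3 idx hidx
  have b3 := h7 idx hidx Z ζ w hZpos
  rw [← hZ₁] at b3
  have b4 := h7 idx hidx Z₁ (hd Z) w (by omega)
  rw [hback, hhd] at b4
  have b5 := h3 idx hidx Z w
  have b6 := h3 idx hidx Z₁ w
  have b7 : Nat.size (K (sel idx Z) w) ≤ s + C + 1 := by
    have d0 : K (sel idx Z) w ≤ n + C := by omega
    exact (size_mono d0).trans (size_add' n C)
  have b8 : Nat.size (K (sel idx Z₁) w) ≤ Nat.size A + s + 2 := by
    have d0 : K (sel idx Z₁) w ≤ n₂ := by omega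
    exact (size_mono d0).trans hs2
  have b9 : cW * (Nat.size n₂ + E + 1) ≤ cW * ((Nat.size A + D + 3) * (s + 1)) := by
    apply Nat.mul_le_mul_left
    have d1 : (Nat.size A + D + 3) * (s + 1) =
        Nat.size A * s + Nat.size A + D * (s + 1) + 3 * s + 3 := by ring
    have d2 : 0 ≤ Nat.size A * s := Nat.zero_le _
    rw [d1, hEdef]
    linarith only [hs2, d2]
  have b10 : (cW * (Nat.size A + D + 3) + 10 * D + 100 * (C + 1) + Nat.size A) * (s + 1) =
      cW * ((Nat.size A + D + 3) * (s + 1)) + 10 * (D * (s + 1)) + 100 * (C * s) + 100 * s +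
        100 * C + 100 + Nat.size A * s + Nat.size A := by ring
  have b11 : 0 ≤ C * s := Nat.zero_le _
  have b12 : 0 ≤ Nat.size A * s := Nat.zero_le _
  -- `2 * size A ≤ ...`
  have b13 : Nat.size A ≤ D + 10 := by
    have d1 : A = 10 * D := by rw [hA, hD]; ring
    have d2 := size_mul_le 10 D
    have d3 : Nat.size 10 = 4 := by decide
    have d4 := size_le_self D
    rw [d1]
    omega
  have b14 : D ≤ D * (s + 1) := Nat.le_mul_of_pos_right _ (by omega)
  rw [b10]
  have hc7 : c7 ≤ C := by omega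
  have b15 : K ζ (hd Z, w) ≤ K x' w' - K (hd Z) w + D * (s + 1) := z4.trans (by omega)
  have b16 : K (hd Z) (ζ, w) ≤ K (hd Z) w - K x' w' + D * (s + 1) := z3.trans (by omega)
  generalize K x' w' - K (hd Z) w = a1 at b15 ⊢
  generalize K (hd Z) w - K x' w' = a2 at b16 ⊢
  constructor
  · linarith only [b1, b3, b7, b9, b11, b12, b13, b14, b15, hc7]
  · linarith only [b2, b4, b8, b9, b11, b12, b13, b14, b16, hc7]

end Pool.Agent.Y576.PR
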