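import Mathlib
import Pool.Agent.Y576.PR.Core4

/-!
# Profiles of tuples with a given first component
-/

set_option autoImplicit false

namespace Pool.Agent.Y576.PR

open Encodable Pool.Agent.Helper760.Kolm

/-- `U` is an optimal conditional decompressor. -/
def OptC (U : List Bool → List Bool →. List Bool) : Prop :=
  Partrec₂ U ∧ ∀ V : List Bool → List Bool →. List Bool, Partrec₂ V →
    ∃ c : ℕ, ∀ p w x : List Bool, x ∈ V p w →
      ∃ q : List Bool, x ∈ U q w ∧ q.length ≤ p.length + c

/-- conditional complexity -/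
noncomputable def cC (U : List Bool → List Bool →. List Bool) (x w : List Bool) : ℕ :=
  sInf {m : ℕ | ∃ p : List Bool, x ∈ U p w ∧ p.length = m}

/-- The subtuple of the `z i` with `i ∈ S`. -/
def sub {k : ℕ} (z : Fin (k + 1) → List Bool) (S : Finset (Fin (k + 1))) :
    List (List Bool) :=
  ((List.finRange (k + 1)).filter (fun i => decide (i ∈ S))).map z

/-! ### Comparison with the reference complexity -/

theorem cC_spec {U : List Bool → List Bool →. List Bool} (hU : OptC U) (x w : List Bool) :
    ∃ p : List Bool, x ∈ U p w ∧ p.length = cC U x w := by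
  have h : {m : ℕ | ∃ p : List Bool, x ∈ U p w ∧ p.length = m}.Nonempty := by
    obtain ⟨c, hc⟩ := hU.2 (fun p _ => Part.some p) (Computable.fst.partrec)
    obtain ⟨q, hq, _⟩ := hc x w x (Part.mem_some x)
    exact ⟨q.length, q, hq, rfl⟩
  exact Nat.sInf_mem h

theorem cC_le {U : List Bool → List Bool →. List Bool} (x w p : List Bool) (h : x ∈ U p w) :
    cC U x w ≤ p.length := Nat.sInf_le ⟨p, h, rfl⟩

theorem cC_le_K {α : Type} [Primcodable α] {U : List Bool → List Bool →. List Bool}
    (hU : OptC U) (enc : α → List Bool) (henc : Computable enc) :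
    ∃ c : ℕ, ∀ (a : α) (w : List Bool), cC U (enc a) w ≤ K a w + c := by
  have hV : Partrec₂ (fun p w : List Bool =>
      (M p (encode w)).bind fun n => (Part.ofOption (decode (α := α) n)).map enc) := by
    refine Partrec.bind ?_ ?_
    · exact partrec_M.comp Computable.fst (Computable.encode.comp Computable.snd)
    · refine Partrec.map ?_ (henc.comp Computable.snd).to₂
      exact (Computable.decode.comp Computable.snd).ofOption
  obtain ⟨c, hc⟩ := hU.2 _ hV
  refine ⟨c, fun a w => ?_⟩
  obtain ⟨p, hp, hl⟩ := K_spec a w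
  obtain ⟨q, hq, hql⟩ := hc p w (enc a) (by
    simp only [Part.mem_bind_iff]
    refine ⟨encode a, hp, ?_⟩
    simp)
  have := cC_le _ _ _ hq
  omega

theorem K_le_cC {α : Type} [Primcodable α] {U : List Bool → List Bool →. List Bool}
    (hU : OptC U) (enc : α → List Bool) (henc : Computable enc)
    (hinj : Function.Injective enc) :
    ∃ c : ℕ, ∀ (a : α) (w : List Bool), K a w ≤ cC U (enc a) w + c := by
  let φ : Unit × List Bool × List Bool →. α := fun x =>
    (U x.2.1 x.2.2).bind fun s => Nat.rfindOpt (fun t =>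
      (decode (α := α) t).bind fun w => if enc w = s then some w else none)
  have hφ : Partrec φ := by
    refine Partrec.bind ?_ ?_
    · exact hU.1.comp (Computable.fst.comp Computable.snd) (Computable.snd.comp Computable.snd)
    · refine Partrec.rfindOpt ?_
      refine Computable.option_bind (Computable.decode.comp Computable.snd) ?_
      have hcond : Computable (fun y : ((((Unit × List Bool × List Bool) × List Bool) × ℕ) × α) =>
          decide (enc y.2 = y.1.1.2)) := by
        have h1 : Primrec (fun z : List Bool × List Bool => decide (z.1 = z.2)) :=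
          (Primrec.eq (α := List Bool)).decide
        exact h1.to_comp.comp (Computable.pair (henc.comp Computable.snd)
          (Computable.snd.comp (Computable.fst.comp Computable.fst)))
      refine (Computable.cond hcond (Computable.option_some.comp Computable.snd)
        (Computable.const none)).to₂.of_eq ?_
      rintro ⟨y, w⟩
      by_cases h : enc w = y.1.2 <;> simp [h]
  obtain ⟨c, hc⟩ := K_param φ hφ
  refine ⟨c, fun a w => ?_⟩
  obtain ⟨p, hp, hl⟩ := cC_spec hU (enc a) w
  have h := hc () p w a (by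
    simp only [φ, Part.mem_bind_iff]
    refine ⟨enc a, hp, ?_⟩
    have hex : ∃ n b, b ∈ ((decode (α := α) n).bind fun w' =>
        if enc w' = enc a then some w' else none : Option α) :=
      ⟨encode a, a, by simp⟩
    obtain ⟨b, hb⟩ := Part.dom_iff_mem.1 (Nat.rfindOpt_dom.2 hex)
    obtain ⟨n, hn⟩ := Nat.rfindOpt_spec hb
    have hn' : ((decode (α := α) n).bind fun w' =>
        if enc w' = enc a then some w' else none) = some b := hn
    simp only [Option.bind_eq_some_iff] at hn'
    obtain ⟨w', _, hw'⟩ := hn'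
    split_ifs at hw' with heq
    cases hw'
    obtain rfl : b = a := hinj heq
    exact hb)
  simp only [size_encode_unit] at h
  omega

/-! ### Bounds -/

/-- Linear bound for the complexity of a list of strings. -/
theorem K_list_le : ∃ c : ℕ, ∀ Z : List (List Bool),
    K Z ([] : List Bool) ≤ 3 * (Z.map List.length).sum + c * (Z.length + 1) := by
  obtain ⟨c1, h1⟩ := K_param (γ := Unit) (α := List Bool) (β := List Bool)
    (fun x => Part.some x.2.1) (Computable.fst.comp Computable.snd).partrec
  have hs : ∀ s : List Bool, K s ([] : List Bool) ≤ s.length + c1 := by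
    intro s
    have := h1 () s [] s (Part.mem_some s)
    simp only [size_encode_unit] at this
    omega
  obtain ⟨c2, h2⟩ := K_chain (α := List Bool) (β := List (List Bool)) (γ := List Bool)
  obtain ⟨c3, h3⟩ := K_comp (fun (Z : List (List Bool)) (s : List Bool × List Bool) => s.1 :: Z)
    (Primrec.list_cons.comp (Primrec.fst.comp Primrec.snd) Primrec.fst).to_comp.to₂
    (fun _ : List Bool × List Bool => ([] : List Bool)) (Computable.const [])
  refine ⟨K ([] : List (List Bool)) ([] : List Bool) + 3 * c1 + c2 + c3, ?_⟩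
  intro Z
  induction Z with
  | nil => simp; omega
  | cons s Z ih =>
    have e1 := h2 s (s :: Z) []
    have e2 := h3 Z (s, [])
    have e3 := hs s
    have e4 := size_le_self (K s ([] : List Bool))
    simp only [List.map_cons, List.sum_cons, List.length_cons] at e2 ⊢
    have e5 : (K ([] : List (List Bool)) ([] : List Bool) + 3 * c1 + c2 + c3) *
        (Z.length + 1 + 1) =
        (K ([] : List (List Bool)) ([] : List Bool) + 3 * c1 + c2 + c3) * (Z.length + 1) +
        (K ([] : List (List Bool)) ([] : List Bool) + 3 * c1 + c2 + c3) := by ring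
    rw [e5]
    omega

theorem size_le_log (m : ℕ) (hm : 2 ≤ m) : (Nat.size m : ℝ) ≤ 3 * Real.log m := by
  have h1 : 2 ^ (Nat.size m - 1) ≤ m := by
    have h2 : Nat.size m - 1 < Nat.size m := by
      have : 0 < Nat.size m := Nat.size_pos.2 (by omega)
      omega
    exact Nat.lt_size.1 h2
  have h3 : ((2 : ℝ) ^ (Nat.size m - 1)) ≤ m := by exact_mod_cast h1
  have h4 : ((Nat.size m - 1 : ℕ) : ℝ) * Real.log 2 ≤ Real.log m := by
    rw [← Real.log_pow]
    exact Real.log_le_log (by positivity) h3
  have h5 : ((Nat.size m - 1 : ℕ) : ℝ) = (Nat.size m : ℝ) - 1 := by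
    have : 1 ≤ Nat.size m := Nat.size_pos.2 (by omega)
    push_cast [Nat.cast_sub this]
    ring
  rw [h5] at h4
  have h6 : Real.log 2 ≤ Real.log m :=
    Real.log_le_log (by norm_num) (by exact_mod_cast hm)
  have h7 := Real.log_two_gt_d9
  nlinarith

theorem sub_univ {k : ℕ} (z : Fin (k + 1) → List Bool) : sub z Finset.univ = List.ofFn z := by
  unfold sub
  rw [List.ofFn_eq_map]
  congr 1
  rw [List.filter_eq_self]
  intro i _
  simp

/-- profiles in terms of the reference complexity -/
theorem prof (k : ℕ) : ∃ c : ℕ, ∀ (w w' x x' : List Bool) (y : Fin k → List Bool) (n : ℕ),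
    K (sub (Fin.cons x y) Finset.univ) w ≤ n → K x' w' ≤ n →
    ∃ y' : Fin k → List Bool, ∀ S : Finset (Fin (k + 1)),
      K (sub (Fin.cons x' y') S) w' ≤ K (sub (Fin.cons x y) S) w + (K x' w' - K x w) +
        c * (Nat.size n + 1) ∧
      K (sub (Fin.cons x y) S) w ≤ K (sub (Fin.cons x' y') S) w' + (K x w - K x' w') +
        c * (Nat.size n + 1) := by
  classical
  set idxL : Finset (Fin (k + 1)) → List ℕ := fun S =>
    ((List.finRange (k + 1)).filter (fun i => decide (i ∈ S))).map
      (fun i : Fin (k + 1) => i.val) with hidxL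
  set Idx : List (List ℕ) :=
    (Finset.univ : Finset (Finset (Fin (k + 1)))).toList.map idxL with hIdx
  obtain ⟨c, hc⟩ := coreLip Idx (k + 1) (by omega)
  refine ⟨c, fun w w' x x' y n hn hx' => ?_⟩
  set Z : List (List Bool) := List.ofFn (Fin.cons x y : Fin (k + 1) → List Bool) with hZ
  have hZlen : Z.length = k + 1 := by rw [hZ, List.length_ofFn]
  have hZget : ∀ i : Fin (k + 1), Z.getD (i : ℕ) [] =
      (Fin.cons x y : Fin (k + 1) → List Bool) i := by
    intro i
    rw [hZ, List.getD_eq_getElem?_getD, List.getElem?_ofFn]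
    simp [Fin.is_le i]
  have hhdZ : hd Z = x := by
    have := hZget 0
    simpa [hd] using this
  rw [sub_univ, ← hZ] at hn
  obtain ⟨Z', hZ'len, hZ'hd, hZ'⟩ := hc Z x' w w' n hZlen hn hx'
  refine ⟨fun i => Z'.getD ((i : ℕ) + 1) [], ?_⟩
  intro S
  have hZ'get : ∀ i : Fin (k + 1), Z'.getD (i : ℕ) [] =
      (Fin.cons x' (fun i : Fin k => Z'.getD ((i : ℕ) + 1) []) : Fin (k + 1) → List Bool) i := by
    intro i
    refine Fin.cases ?_ (fun j => ?_) i
    · rw [Fin.cons_zero]; exact hZ'hd
    · rw [Fin.cons_succ]; rfl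
  have hs1 : sub (Fin.cons x y) S = sel (idxL S) Z := by
    unfold sub sel
    rw [hidxL, List.map_map]
    apply List.map_congr_left
    intro i _
    exact (hZget i).symm
  have hs2 : sub (Fin.cons x' (fun i : Fin k => Z'.getD ((i : ℕ) + 1) [])) S =
      sel (idxL S) Z' := by
    unfold sub sel
    rw [hidxL, List.map_map]
    apply List.map_congr_left
    intro i _
    exact (hZ'get i).symm
  rw [hs1, hs2]
  have hmem : idxL S ∈ Idx := by
    rw [hIdx]
    exact List.mem_map_of_mem (Finset.mem_toList.2 (Finset.mem_univ _))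
  have := hZ' _ hmem
  rw [hhdZ] at this
  exact this

/-- arithmetic: from natural numbers to logarithms -/
theorem arith (c A : ℕ) : ∃ c' : ℝ, ∀ (P Q a b N n : ℕ),
    P ≤ Q + (a - b) + c * (Nat.size n + 1) → Q ≤ P + (b - a) + c * (Nat.size n + 1) →
    n ≤ A * (2 + N) →
    |(P : ℝ) - Q| ≤ |(a : ℝ) - b| + c' * Real.log (2 + N) := by
  refine ⟨((c : ℝ) * (Nat.size A + 2)) * 3, ?_⟩
  intro P Q a b N n h1 h2 hn
  have hsz : Nat.size n ≤ Nat.size A + Nat.size (2 + N) := (size_mono hn).trans (size_mul_le _ _)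
  have hs1 : 1 ≤ Nat.size (2 + N) := Nat.size_pos.2 (by omega)
  have hlog := size_le_log (2 + N) (by omega)
  push_cast at hlog
  have h3 : (Nat.size n + 1) ≤ (Nat.size A + 2) * Nat.size (2 + N) := by
    have e1 : (Nat.size A + 2) * Nat.size (2 + N) =
      Nat.size A * Nat.size (2 + N) + 2 * Nat.size (2 + N) := by ring
    have e2 : Nat.size A ≤ Nat.size A * Nat.size (2 + N) := Nat.le_mul_of_pos_right _ hs1
    omega
  have h4 : c * (Nat.size n + 1) ≤ c * ((Nat.size A + 2) * Nat.size (2 + N)) :=
    Nat.mul_le_mul_left _ h3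
  have h5 : ((c * ((Nat.size A + 2) * Nat.size (2 + N)) : ℕ) : ℝ) ≤
      ((c : ℝ) * (Nat.size A + 2)) * 3 * Real.log (2 + N) := by
    push_cast
    have hpos : (0 : ℝ) ≤ (c : ℝ) * (Nat.size A + 2) := by positivity
    calc (c : ℝ) * ((Nat.size A + 2) * Nat.size (2 + N)) =
        ((c : ℝ) * (Nat.size A + 2)) * Nat.size (2 + N) := by ring
      _ ≤ ((c : ℝ) * (Nat.size A + 2)) * (3 * Real.log (2 + N)) := by gcongr
      _ = _ := by ring
  have hab : ((a - b : ℕ) : ℝ) ≤ |(a : ℝ) - b| := by
    rcases le_total b a with h | h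
    · rw [Nat.cast_sub h]; exact le_abs_self _
    · rw [Nat.sub_eq_zero_of_le h]; simp
  have hba : ((b - a : ℕ) : ℝ) ≤ |(a : ℝ) - b| := by
    rcases le_total a b with h | h
    · rw [Nat.cast_sub h, abs_sub_comm]; exact le_abs_self _
    · rw [Nat.sub_eq_zero_of_le h]; simp
  have g1 : (P : ℝ) ≤ Q + ((a - b : ℕ) : ℝ) +
      ((c * ((Nat.size A + 2) * Nat.size (2 + N)) : ℕ) : ℝ) := by
    exact_mod_cast (show P ≤ Q + (a - b) + c * ((Nat.size A + 2) * Nat.size (2 + N)) by omega)
  have g2 : (Q : ℝ) ≤ P + ((b - a : ℕ) : ℝ) +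
      ((c * ((Nat.size A + 2) * Nat.size (2 + N)) : ℕ) : ℝ) := by
    exact_mod_cast (show Q ≤ P + (b - a) + c * ((Nat.size A + 2) * Nat.size (2 + N)) by omega)
  rw [abs_le]
  constructor <;> linarith

/-- the final form -/
theorem main_min (k : ℕ) (U : List Bool → List Bool →. List Bool) (hU : OptC U)
    (enc : List (List Bool) → List Bool) (henc : Computable enc)
    (hinj : Function.Injective enc) :
    ∃ c : ℝ, ∀ (w w' x x' : List Bool) (y : Fin k → List Bool), ∃ y' : Fin k → List Bool,
    ∀ S : Finset (Fin (k + 1)),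
      |(cC U (enc (sub (Fin.cons x y) S)) w : ℝ) - (cC U (enc (sub (Fin.cons x' y') S)) w' : ℝ)| ≤
      |(cC U x w : ℝ) - (cC U x' w' : ℝ)| + c * Real.log (2 +
        ((min (cC U (enc (sub (Fin.cons x y) Finset.univ)) w + cC U x' w')
          (x.length + x'.length + ∑ i, (y i).length) : ℕ) : ℝ)) := by
  obtain ⟨c0, hc0⟩ := prof k
  obtain ⟨c1, hc1⟩ := cC_le_K hU enc henc
  obtain ⟨c2, hc2⟩ := K_le_cC hU enc henc hinj
  obtain ⟨c3, hc3⟩ := cC_le_K hU (fun s : List Bool => s) Computable.id
  obtain ⟨c4, hc4⟩ := K_le_cC hU (fun s : List Bool => s) Computable.id (fun a b h => h)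
  obtain ⟨c5, hc5⟩ := K_list_le
  obtain ⟨c6, hc6⟩ := K_map (V := List Bool) hd primrec_hd.to_comp
  obtain ⟨c7, hc7⟩ := K_cond (δ := List (List Bool)) (fun _ : List Bool => ([] : List Bool))
    (Computable.const [])
  set A := 4 + c5 * (k + 2) + c6 + c7 + c2 + c4 with hA
  obtain ⟨c, hc⟩ := arith (c0 + c1 + c2 + c3 + c4) A
  refine ⟨c, fun w w' x x' y => ?_⟩
  set N1 := cC U (enc (sub (Fin.cons x y) Finset.univ)) w + cC U x' w' with hN1
  set N2 := x.length + x'.length + ∑ i, (y i).length with hN2
  set N := min N1 N2 with hN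
  set n := A * (2 + N) with hn
  have hbig : ∀ M : ℕ, 3 * M + c5 * (k + 2) + c6 + c7 + c2 + c4 ≤ A * (2 + M) := by
    intro M
    have h0 : A * (2 + M) = 4 * (2 + M) + (c5 * (k + 2)) * (2 + M) + c6 * (2 + M) +
      c7 * (2 + M) + c2 * (2 + M) + c4 * (2 + M) := by rw [hA]; ring
    have h1 : c5 * (k + 2) ≤ (c5 * (k + 2)) * (2 + M) := Nat.le_mul_of_pos_right _ (by omega)
    have h2 : c6 ≤ c6 * (2 + M) := Nat.le_mul_of_pos_right _ (by omega)
    have h3 : c7 ≤ c7 * (2 + M) := Nat.le_mul_of_pos_right _ (by omega)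
    have h4 : c2 ≤ c2 * (2 + M) := Nat.le_mul_of_pos_right _ (by omega)
    have h5 : c4 ≤ c4 * (2 + M) := Nat.le_mul_of_pos_right _ (by omega)
    omega
  have hK1 : K (sub (Fin.cons x y) Finset.univ) w ≤ n := by
    rcases le_total N1 N2 with h | h
    · rw [hn, hN, min_eq_left h]
      have e1 := hc2 (sub (Fin.cons x y) Finset.univ) w
      have e2 := hbig N1
      omega
    · rw [hn, hN, min_eq_right h]
      have e1 := hc5 (sub (Fin.cons x y) Finset.univ)
      have e0 := hc7 (sub (Fin.cons x y) Finset.univ) w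
      rw [sub_univ] at e1 e0 ⊢
      rw [List.length_ofFn, List.map_ofFn, List.sum_ofFn, Fin.sum_univ_succ] at e1
      simp only [Function.comp, Fin.cons_zero, Fin.cons_succ] at e1
      have e2 : c5 * (k + 1 + 1) = c5 * (k + 2) := by ring
      have e3 := hbig N2
      omega
  have hK2 : K x' w' ≤ n := by
    rcases le_total N1 N2 with h | h
    · rw [hn, hN, min_eq_left h]
      have e1 := hc4 x' w'
      have e2 := hbig N1
      omega
    · rw [hn, hN, min_eq_right h]
      have e1 := hc5 [x']
      have e0 := hc7 [x'] w'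
      have e2 := hc6 [x'] w'
      have e3 : hd [x'] = x' := rfl
      rw [e3] at e2
      simp only [List.map_cons, List.map_nil, List.sum_cons, List.sum_nil, List.length_cons,
        List.length_nil] at e1
      have e4 : c5 * (0 + 1 + 1) ≤ c5 * (k + 2) := Nat.mul_le_mul_left _ (by omega)
      have e5 := hbig N2
      omega
  obtain ⟨y', hy'⟩ := hc0 w w' x x' y n hK1 hK2
  refine ⟨y', fun S => ?_⟩
  obtain ⟨h1, h2⟩ := hy' S
  have a1 := hc1 (sub (Fin.cons x y) S) w
  have a2 := hc2 (sub (Fin.cons x y) S) w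
  have a3 := hc1 (sub (Fin.cons x' y') S) w'
  have a4 := hc2 (sub (Fin.cons x' y') S) w'
  have b1 := hc3 x w
  have b2 := hc4 x w
  have b3 := hc3 x' w'
  have b4 := hc4 x' w'
  have hd : (c0 + c1 + c2 + c3 + c4) * (Nat.size n + 1) = c0 * (Nat.size n + 1) +
      (c1 + c2 + c3 + c4) * (Nat.size n + 1) := by ring
  have hd2 : c1 + c2 + c3 + c4 ≤ (c1 + c2 + c3 + c4) * (Nat.size n + 1) :=
    Nat.le_mul_of_pos_right _ (by omega)
  clear hc0 hc1 hc2 hc3 hc4 hc5 hc6 hc7 hbig hy' hK1 hK2
  exact hc (cC U (enc (sub (Fin.cons x y) S)) w)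
    (cC U (enc (sub (Fin.cons x' y') S)) w') (cC U x w) (cC U x' w') N n
    (by rw [hd]; omega) (by rw [hd]; omega) le_rfl

end Pool.Agent.Y576.PR
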